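import Pool.Agent.TD.AR.Final

/-! Section AR: the form of theorem AR which section X3 uses. -/

open scoped ContDiff Topology NNReal

namespace Pool.Agent.TD

/-- Constant forms in the coordinates `h` are constant forms in the coordinates `g` if every `h i`
is one of the `g j`. -/
theorem cstR_reindex {Φ : Type} {m n p : ℕ} (h : Fin m → Φ) (g : Fin n → Φ)
    (hg : ∀ i, ∃ j, g j = h i) (α : (Fin m → ℝ) [⋀^Fin p]→L[ℝ] ℝ) :
    ∃ β : (Fin n → ℝ) [⋀^Fin p]→L[ℝ] ℝ, cstR h α = cstR g β := by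
  choose ix hix using hg
  refine ⟨α.compContinuousLinearMap (ContinuousLinearMap.pi fun i =>
    ContinuousLinearMap.proj (ix i)), ?_⟩
  funext x w v
  change α (fun j i => v j (h i)) = α (fun j i => v j (g (ix i)))
  congr 1
  funext j i
  rw [hix]

/-- A constant form on a finite index type. -/
theorem exists_cstR_fin {Ψ Φ : Type} [Finite Ψ] {p : ℕ} {θ : Raw Ψ p 0} (hc : IsCst θ)
    {s : Finset Ψ} (hs : IsSF s θ) (u : Ψ → Φ) {n : ℕ} (g : Fin n → Φ)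
    (hg : ∀ i, ∃ j, g j = u i) : ∃ β : (Fin n → ℝ) [⋀^Fin p]→L[ℝ] ℝ, pullR u θ = cstR g β := by
  classical
  obtain ⟨m, ⟨e⟩⟩ := Finite.exists_equiv_fin Ψ
  have hs' : IsSF (Finset.univ.image e.symm) θ := by
    refine hs.mono ?_
    intro x _
    exact Finset.mem_image.2 ⟨e x, Finset.mem_univ _, e.symm_apply_apply x⟩
  obtain ⟨α, rfl⟩ := exists_cstR hc hs'
  rw [pullR_cstR]
  exact cstR_reindex _ g (fun i => hg _) α

theorem ar_all (K σ ι : Type) [NormedField K] [IsUltrametricDist K] [Finite σ] [Finite ι]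
    (ρ : σ → ℝ≥0) (a0 : ι → K) (a : ι → σ → K) (r : ι → ℝ≥0) (hρ : ∀ b, 0 < ρ b)
    (hr : ∀ i, 0 < r i) (h1 : ∀ i b, ‖a i b‖₊ * ρ b ≤ r i) (h0 : ∀ i, ‖a0 i‖₊ ≤ r i) :
    (∀ (p q : ℕ) (c : (berLS K (MvPolynomial σ K)).G p (q + 1)),
      (∀ y ∈ ArrSet ρ a0 a r, (berLS K (MvPolynomial σ K)).ddS p (q + 1) y (c.1 y) = 0) →
      ∃ e : (berLS K (MvPolynomial σ K)).G p q, ∀ y ∈ ArrSet ρ a0 a r,
        c.1 y = (berLS K (MvPolynomial σ K)).ddS p q y (e.1 y)) ∧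
    (∀ (N : ℕ) (g : Fin N → MvPolynomial σ K),
      Set.range g = Set.range MvPolynomial.X ∪ Set.range (fun i => linf (a0 i) (a i)) →
      ∀ (p : ℕ) (c : (berLS K (MvPolynomial σ K)).G p 0),
      (∀ y ∈ ArrSet ρ a0 a r, (berLS K (MvPolynomial σ K)).ddS p 0 y (c.1 y) = 0) →
      ∃ α : (Fin N → ℝ) [⋀^Fin p]→L[ℝ] ℝ, ∀ y ∈ ArrSet ρ a0 a r,
        ∃ h : (berLS K (MvPolynomial σ K)).SFat y (cstR g α),
          c.1 y = (berLS K (MvPolynomial σ K)).germ (cstR g α) h) := by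
  have h0' : ∀ i, ‖a0 i‖ ≤ r i := fun i => h0 i
  have h1' : ∀ i b, ‖a i b‖ * ρ b ≤ r i := fun i b => by exact_mod_cast h1 i b
  refine ⟨fun p q c hc => ar_ex ρ a0 a r hρ hr h0' h1' p q c hc, ?_⟩
  intro N g hg p c hc
  obtain ⟨θ, s, hθ, hs, H⟩ := ar_cst ρ a0 a r hρ hr h0' h1' c hc
  obtain ⟨β, hβ⟩ := exists_cstR_fin hθ hs (Sum.elim MvPolynomial.X fun i => linf (a0 i) (a i)) g
    (by
      intro i
      have : Sum.elim MvPolynomial.X (fun i => linf (a0 i) (a i)) i ∈ Set.range g := by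
        rw [hg]
        rcases i with b | i
        · exact Or.inl ⟨b, rfl⟩
        · exact Or.inr ⟨i, rfl⟩
      exact this)
  rw [hβ] at H
  exact ⟨β, H⟩

end Pool.Agent.TD
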