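import Pool.Agent.TD.AR.Sub

/-! Section AR: calculus of constant forms near compact sets. -/

open scoped ContDiff Topology

namespace Pool.Agent.TD

section
variable {X Φ : Type} [TopologicalSpace X] {L : LogSpace X Φ} {p q : ℕ}

theorem CstOn.mono {S S' : Set Φ} {c : L.G p 0} {Z Z' : Set X} (h : CstOn L S c Z) (hS : S ⊆ S')
    (hZ : Z' ⊆ Z) : CstOn L S' c Z' := by
  obtain ⟨n, u, θ, hu, hc, hs, hz⟩ := h
  exact ⟨n, u, θ, fun i => hS (hu i), hc, hs, fun z hz' => hz z (hZ hz')⟩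

theorem CstOn.congr {S : Set Φ} {c c' : L.G p 0} {Z : Set X} (h : CstOn L S c Z)
    (e : ∀ z ∈ Z, c.1 z = c'.1 z) : CstOn L S c' Z := by
  obtain ⟨n, u, θ, hu, hc, hs, hz⟩ := h
  refine ⟨n, u, θ, hu, hc, hs, fun z hz' => ?_⟩
  obtain ⟨k, ek⟩ := hz z hz'
  exact ⟨k, (e z hz').symm.trans ek⟩

lemma calCst {Ψ : Type} {θ : Raw Ψ p q} (h : IsCst θ) (u : Ψ → Φ) : IsCst (pullR u θ) :=
  fun _ _ _ _ => h _ _ _ _

theorem CstOn.clOn {S : Set Φ} {c : L.G p 0} {Z : Set X} (h : CstOn L S c Z) : ClOn L c Z := by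
  obtain ⟨n, u, θ, hu, hc, hs, hz⟩ := h
  intro z hz'
  obtain ⟨k, ek⟩ := hz z hz'
  rw [ek]
  exact L.Lp_closed (L.germ_cst_mem (calCst hc u) k)

lemma calApp {m m' : ℕ} (u : Fin m → Φ) (u' : Fin m' → Φ) (θ : Raw (Fin m) p q)
    (θ' : Raw (Fin m') p q) :
    pullR (Fin.append u u') (pullR (Fin.castAdd m') θ + pullR (Fin.natAdd m) θ') =
      pullR u θ + pullR u' θ' := by
  have e1 : Fin.append u u' ∘ Fin.castAdd m' = u := funext fun i => Fin.append_left u u' i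
  have e2 : Fin.append u u' ∘ Fin.natAdd m = u' := funext fun i => Fin.append_right u u' i
  have e3 : pullR (Fin.append u u') (pullR (Fin.castAdd m') θ + pullR (Fin.natAdd m) θ') =
      pullR (Fin.append u u' ∘ Fin.castAdd m') θ + pullR (Fin.append u u' ∘ Fin.natAdd m) θ' := rfl
  rw [e3, e1, e2]

lemma calCons {m : ℕ} (f : Φ) (u : Fin m → Φ) (θ : Raw (Fin m) p q) :
    pullR (Fin.cons f u : Fin (m + 1) → Φ) (wdg1 (dlg 0) (pullR Fin.succ θ)) =
      wdg1 (dlg f) (pullR u θ) := by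
  rw [pullR_wdg1]
  have e1 : (Fin.cons f u : Fin (m + 1) → Φ) ∘ Fin.succ = u := rfl
  have e2 : pullR (Fin.cons f u : Fin (m + 1) → Φ) (pullR Fin.succ θ) =
      pullR ((Fin.cons f u : Fin (m + 1) → Φ) ∘ Fin.succ) θ := rfl
  have e3 : pullR (Fin.cons f u : Fin (m + 1) → Φ) (dlg 0) = dlg f := rfl
  rw [e2, e1, e3]

theorem CstOn.add {S : Set Φ} {c c' : L.G p 0} {Z : Set X} (h : CstOn L S c Z)
    (h' : CstOn L S c' Z) : CstOn L S (c + c') Z := by
  obtain ⟨m, u, θ, hu, hc, hs, hz⟩ := h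
  obtain ⟨m', u', θ', hu', hc', hs', hz'⟩ := h'
  refine ⟨m + m', Fin.append u u', pullR (Fin.castAdd m') θ + pullR (Fin.natAdd m) θ', ?_,
    (calCst hc _).add (calCst hc' _), (hs.pullR.mono (Finset.subset_univ _)).add
      (hs'.pullR.mono (Finset.subset_univ _)), fun z hzZ => ?_⟩
  · intro i
    refine Fin.addCases (fun j => ?_) (fun j => ?_) i
    · rw [Fin.append_left]; exact hu j
    · rw [Fin.append_right]; exact hu' j
  · obtain ⟨k1, e1⟩ := hz z hzZ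
    obtain ⟨k2, e2⟩ := hz' z hzZ
    have e := calApp u u' θ θ'
    have k : L.SFat z (pullR (Fin.append u u')
        (pullR (Fin.castAdd m') θ + pullR (Fin.natAdd m) θ')) := by
      rw [e]; exact k1.add k2
    refine ⟨k, ?_⟩
    have e3 : (c + c').1 z = c.1 z + c'.1 z := rfl
    rw [e3, e1, e2, ← L.germ_add k1 k2]
    exact L.germ_congr e.symm _ _

/-- Exterior product with `dlog f`. -/
theorem CstOn.wd {S : Set Φ} {c : L.G p 0} {c' : L.G (p + 1) 0} {Z : Set X} (h : CstOn L S c Z)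
    {f : Φ} (hf : f ∈ S) (e : ∀ z ∈ Z, ∃ k : z ∈ L.dom f,
      c'.1 z = L.wdS p 0 z (L.dlS f k) (c.1 z)) : CstOn L S c' Z := by
  obtain ⟨m, u, θ, hu, hc, hs, hz⟩ := h
  refine ⟨m + 1, Fin.cons f u, wdg1 (dlg 0) (pullR Fin.succ θ), ?_,
    (isCst_dlg 0).wdg1 (calCst hc _), IsSF.wdg1 (isSF_dlg (Finset.mem_univ 0))
      (hs.pullR.mono (Finset.subset_univ _)), fun z hzZ => ?_⟩
  · intro i
    refine Fin.cases ?_ (fun j => ?_) i
    · rw [Fin.cons_zero]; exact hf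
    · rw [Fin.cons_succ]; exact hu j
  · obtain ⟨k1, e1⟩ := hz z hzZ
    obtain ⟨k2, e2⟩ := e z hzZ
    have e3 := calCons f u θ
    have k0 : L.SFat z (dlg f) :=
      ⟨{f}, isSF_dlg (Finset.mem_singleton_self f), by simpa using k2⟩
    have k : L.SFat z (pullR (Fin.cons f u : Fin (m + 1) → Φ)
        (wdg1 (dlg 0) (pullR Fin.succ θ))) := by
      rw [e3]; exact LogSpace.SFat.wdg1 L k0 k1
    refine ⟨k, ?_⟩
    rw [e2, e1]
    have e4 : L.wdS p 0 z (L.dlS f k2) (L.germ (pullR u θ) k1) =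
        L.germ (wdg1 (dlg f) (pullR u θ)) (LogSpace.SFat.wdg1 L k0 k1) := rfl
    rw [e4]
    exact L.germ_congr e3.symm _ _

/-- Replacement of the functions `S` by functions `S'`. -/
theorem CstOn.subst {S S' : Set Φ} {c : L.G p 0} {Z : Set X} (h : CstOn L S c Z)
    (e : ∀ f ∈ S, ∃ f' ∈ S', EqvOn L f f' Z) : CstOn L S' c Z := by
  obtain ⟨m, u, θ, hu, hc, hs, hz⟩ := h
  have h1 : ∀ i, ∃ f' ∈ S', EqvOn L (u i) f' Z := fun i => e (u i) (hu i)
  choose u' hu' he using h1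
  refine ⟨m, u', θ, hu', hc, hs, fun z hzZ => ?_⟩
  obtain ⟨k, ek⟩ := hz z hzZ
  refine ⟨sfat_pullR L hs fun i _ => (he i z hzZ).2.1, ?_⟩
  rw [ek, L.germ_eq_iff]
  exact van_sub L hc hs fun i _ => he i z hzZ

/-- Pull back. -/
theorem CstOn.pull {X' Φ' : Type} [TopologicalSpace X'] {L' : LogSpace X' Φ'} (m : Mor L L')
    {S : Set Φ'} {c : L'.G p 0} {Z : Set X'} (h : CstOn L' S c Z) :
    CstOn L (m.ix '' S) (m.pullG p 0 c) (m.toFun ⁻¹' Z) := by
  obtain ⟨n, u, θ, hu, hc, hs, hz⟩ := h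
  refine ⟨n, m.ix ∘ u, θ, fun i => Set.mem_image_of_mem _ (hu i), hc, hs, fun z hzZ => ?_⟩
  obtain ⟨k, ek⟩ := hz (m.toFun z) hzZ
  refine ⟨m.sfat k, ?_⟩
  rw [Mor.pullG_val, ek, Mor.pullS_germ]
  rfl

theorem ClOn.pull {X' Φ' : Type} [TopologicalSpace X'] {L' : LogSpace X' Φ'} (m : Mor L L')
    {c : L'.G p q} {Z : Set X'} (h : ClOn L' c Z) : ClOn L (m.pullG p q c) (m.toFun ⁻¹' Z) := by
  intro z hz
  rw [Mor.pullG_val, ← m.pullS_ddS, h _ hz, map_zero]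

/-- The set of points where a section is closed is open. -/
theorem isOpen_cl (c : L.G p q) : IsOpen {z | L.ddS p q z (c.1 z) = 0} := by
  have h := (L.isClosed_supp (L.ddG p q c)).isOpen_compl
  have e : {z | L.ddS p q z (c.1 z) = 0} = (L.supp (L.ddG p q c))ᶜ := by
    ext z
    exact not_not.symm
  rw [e]
  exact h

end

end Pool.Agent.TD
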