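import Pool.Agent.TD.AR.Defs
import Pool.Agent.TD.F.Iso

/-! Section AR: circle bundles with an arbitrary centre (automorphism `X ↦ X + β`). -/

open scoped ContDiff Topology
open Polynomial

namespace Pool.Agent.TD

section
variable {K A : Type} [NormedField K] [CommRing A] [Algebra K A] {r : ℝ}

/-- The automorphism `X ↦ X - β`. -/
noncomputable def cenE (K : Type) {A : Type} [NormedField K] [CommRing A] [Algebra K A] (β : A) :
    A[X] ≃ₐ[K] A[X] :=
  (Polynomial.algEquivAevalXAddC (-β)).restrictScalars K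

theorem cenE_X (β : A) : cenE K β X = X - C β := by
  show Polynomial.algEquivAevalXAddC (-β) X = X - C β
  rw [Polynomial.algEquivAevalXAddC_apply, aeval_X, C_neg, sub_eq_add_neg]

theorem cenE_C (β a : A) : cenE K β (C a) = C a := by
  show Polynomial.algEquivAevalXAddC (-β) (C a) = C a
  rw [Polynomial.algEquivAevalXAddC_apply, aeval_C]
  rfl

/-- The automorphism of `M(A[X])`. -/
noncomputable def cenM (K : Type) {A : Type} [NormedField K] [CommRing A] [Algebra K A] (β : A) :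
    Mor (berLS K A[X]) (berLS K A[X]) := berM (cenE K β : A[X] →ₐ[K] A[X])

/-- The inverse automorphism of `M(A[X])`. -/
noncomputable def cenN (K : Type) {A : Type} [NormedField K] [CommRing A] [Algebra K A] (β : A) :
    Mor (berLS K A[X]) (berLS K A[X]) := berM ((cenE K β).symm : A[X] →ₐ[K] A[X])

theorem cenN_cenM (β : A) (z : Ber K A[X]) : (cenN K β).toFun ((cenM K β).toFun z) = z :=
  berM_inv_toFun (cenE K β) z

theorem cenM_cenN (β : A) (z : Ber K A[X]) : (cenM K β).toFun ((cenN K β).toFun z) = z :=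
  berM_inv_toFun (cenE K β).symm z

theorem cenM_pull_inv (β : A) {p q : ℕ} (c : (berLS K A[X]).G p q) :
    (cenM K β).pullG p q ((cenN K β).pullG p q c) = c :=
  berM_pull_inv (cenE K β) c

theorem cenM_v (β : A) (z : Ber K A[X]) (f : A[X]) :
    ((cenM K β).toFun z).v f = z.v (cenE K β f) := rfl

theorem cenM_comp (β : A) : (cenM K β).comp (prM K A) = prM K A := by
  apply Mor.ext'
  · funext z
    apply Ber.ext_v
    intro a
    show z.v (cenE K β (C a)) = z.v (C a)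
    rw [cenE_C]
  · funext a
    show cenE K β (C a) = C a
    exact cenE_C β a

theorem cenM_pr (β : A) (z : Ber K A[X]) :
    (prM K A).toFun ((cenM K β).toFun z) = (prM K A).toFun z := by
  have h := congrArg (fun m => m.toFun z) (cenM_comp (K := K) β)
  exact h

theorem cenM_pull_pr (β : A) {p q : ℕ} (a : (berLS K A).G p q) :
    (cenM K β).pullG p q ((prM K A).pullG p q a) = (prM K A).pullG p q a := by
  rw [← Mor.pullG_comp, cenM_comp]

theorem mem_cenZ_iff (β : A) (r : ℝ) (Y : Set (Ber K A)) (z : Ber K A[X]) :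
    z ∈ cenZ β r Y ↔ (cenM K β).toFun z ∈ circZ r Y := by
  have h1 : (cenM K β).toFun z ∈ circZ r Y ↔
      z.v (cenE K β X) = r ∧ (prM K A).toFun ((cenM K β).toFun z) ∈ Y := Iff.rfl
  rw [h1, cenE_X, cenM_pr]
  exact and_comm

theorem cenN_cl (β : A) {Y : Set (Ber K A)} {p q : ℕ} {c : (berLS K A[X]).G p q}
    (hc : ClOn (berLS K A[X]) c (cenZ β r Y)) :
    ∀ w ∈ circZ r Y, (berLS K A[X]).ddS p q w (((cenN K β).pullG p q c).1 w) = 0 := by
  intro w hw
  have h1 : (cenN K β).toFun w ∈ cenZ β r Y := by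
    rw [mem_cenZ_iff, cenM_cenN]
    exact hw
  have h2 := hc _ h1
  rw [Mor.pullG_val, ← Mor.pullS_ddS, h2, map_zero]

theorem cen_val (β : A) {p q : ℕ} (c : (berLS K A[X]).G p q) (z : Ber K A[X]) :
    c.1 z = (cenM K β).pullS p q z (((cenN K β).pullG p q c).1 ((cenM K β).toFun z)) := by
  have h := congrArg (fun c : (berLS K A[X]).G p q => c.1 z) (cenM_pull_inv β c)
  exact h.symm

theorem cen_dlS_congr {f g : A[X]} (hfg : f = g) {z : Ber K A[X]}
    (hf : z ∈ (berLS K A[X]).dom f) (hg : z ∈ (berLS K A[X]).dom g) :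
    (berLS K A[X]).dlS f hf = (berLS K A[X]).dlS g hg := by
  subst hfg
  rfl

theorem circ_exOn (gA : Good K A) (gX : Good K A[X]) (hU : CircU K A r) (hr : 0 < r)
    {Y : Set (Ber K A)} (hY : IsCompact Y) (h : ExOn (berLS K A) Y) :
    ExOn (berLS K A[X]) (circZ r Y) := by
  intro p q c hc
  cases p with
  | zero =>
    obtain ⟨a, e, ha, he⟩ := circ_ex0 gA gX hU hY c hc
    obtain ⟨a', ha'⟩ := h 0 q a ha
    refine ⟨(prM K A).pullG 0 q a' + e, fun z hz => ?_⟩
    have h1 : (((prM K A).pullG 0 q a' + e : (berLS K A[X]).G 0 q)).1 z =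
        ((prM K A).pullG 0 q a').1 z + e.1 z := rfl
    rw [he z hz, h1, map_add, Mor.pullG_val, Mor.pullG_val, ha' _ hz.2, Mor.pullS_ddS]
  | succ p =>
    obtain ⟨a, b, e, ha, hb, he⟩ := circ_ex1 gA gX hU hr hY c hc
    obtain ⟨a', ha'⟩ := h (p + 1) q a ha
    obtain ⟨b', hb'⟩ := h p q b hb
    obtain ⟨ξ, hξ⟩ := exists_xi K A hr
    refine ⟨(prM K A).pullG (p + 1) q a' +
      (berLS K A[X]).wdG p q ξ ((prM K A).pullG p q b') + e, fun z hz => ?_⟩
    have hd : z ∈ (berLS K A[X]).dom (X : A[X]) := dom_of_circ hr hz.1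
    have h1 : (((prM K A).pullG (p + 1) q a' +
        (berLS K A[X]).wdG p q ξ ((prM K A).pullG p q b') + e :
          (berLS K A[X]).G (p + 1) q)).1 z =
        ((prM K A).pullG (p + 1) q a').1 z +
          (berLS K A[X]).wdS p q z (ξ.1 z) (((prM K A).pullG p q b').1 z) + e.1 z := rfl
    rw [he z hz hd, h1, map_add, map_add, hξ z hz.1 hd, ddS_wdS_dlS, Mor.pullG_val,
      Mor.pullG_val, Mor.pullG_val, Mor.pullG_val, ha' _ hz.2, hb' _ hz.2, Mor.pullS_ddS,
      Mor.pullS_ddS]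

theorem cen_compact (β : A) (r : ℝ) {Y : Set (Ber K A)} (hY : IsCompact Y) :
    IsCompact (cenZ β r Y) := by
  have h1 : cenZ β r Y = (cenN K β).toFun '' (circZ r Y) := by
    ext z
    constructor
    · intro hz
      exact ⟨(cenM K β).toFun z, (mem_cenZ_iff β r Y z).1 hz, cenN_cenM β z⟩
    · rintro ⟨w, hw, rfl⟩
      rw [mem_cenZ_iff, cenM_cenN]
      exact hw
  rw [h1]
  exact (isCompact_circ_pre r hY).image (cenN K β).cont

theorem cen_ex (gA : Good K A) (gX : Good K A[X]) (hU : CircU K A r) (hr : 0 < r)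
    {Y : Set (Ber K A)} (hY : IsCompact Y) (h : ExOn (berLS K A) Y) (β : A) :
    ExOn (berLS K A[X]) (cenZ β r Y) := by
  intro p q c hc
  obtain ⟨e, he⟩ := circ_exOn gA gX hU hr hY h p q ((cenN K β).pullG p (q + 1) c) (cenN_cl β hc)
  refine ⟨(cenM K β).pullG p q e, fun z hz => ?_⟩
  rw [cen_val β c z, he _ ((mem_cenZ_iff β r Y z).1 hz), Mor.pullS_ddS, Mor.pullG_val]

theorem cen_cst0 (gA : Good K A) (gX : Good K A[X]) (hU : CircU K A r)
    {Y : Set (Ber K A)} (hY : IsCompact Y) (β : A) (c : (berLS K A[X]).G 0 0)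
    (hc : ClOn (berLS K A[X]) c (cenZ β r Y)) :
    ∃ a : (berLS K A).G 0 0, ClOn (berLS K A) a Y ∧
      ∀ z ∈ cenZ β r Y, c.1 z = ((prM K A).pullG 0 0 a).1 z := by
  obtain ⟨a, ha, h⟩ := circ_cst0 gA gX hU hY ((cenN K β).pullG 0 0 c) (cenN_cl β hc)
  refine ⟨a, ha, fun z hz => ?_⟩
  rw [cen_val β c z, h _ ((mem_cenZ_iff β r Y z).1 hz)]
  have h1 := congrArg (fun c : (berLS K A[X]).G 0 0 => c.1 z) (cenM_pull_pr β a)
  exact h1

theorem cen_cst1 (gA : Good K A) (gX : Good K A[X]) (hU : CircU K A r) (hr : 0 < r)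
    {Y : Set (Ber K A)} (hY : IsCompact Y) (β : A) {p : ℕ} (c : (berLS K A[X]).G (p + 1) 0)
    (hc : ClOn (berLS K A[X]) c (cenZ β r Y)) :
    ∃ (a : (berLS K A).G (p + 1) 0) (b : (berLS K A).G p 0),
      ClOn (berLS K A) a Y ∧ ClOn (berLS K A) b Y ∧
      ∀ z ∈ cenZ β r Y, ∀ h : z ∈ (berLS K A[X]).dom (X - C β : A[X]),
        c.1 z = ((prM K A).pullG (p + 1) 0 a).1 z +
          (berLS K A[X]).wdS p 0 z ((berLS K A[X]).dlS (X - C β) h)
            (((prM K A).pullG p 0 b).1 z) := by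
  obtain ⟨a, b, ha, hb, h⟩ := circ_cst1 gA gX hU hr hY ((cenN K β).pullG (p + 1) 0 c)
    (cenN_cl β hc)
  refine ⟨a, b, ha, hb, fun z hz hd => ?_⟩
  have hz' := (mem_cenZ_iff β r Y z).1 hz
  have hd' : (cenM K β).toFun z ∈ (berLS K A[X]).dom (X : A[X]) := dom_of_circ hr hz'.1
  have h1 : (cenM K β).pullS (p + 1) 0 z (((prM K A).pullG (p + 1) 0 a).1
      ((cenM K β).toFun z)) = ((prM K A).pullG (p + 1) 0 a).1 z :=
    congrArg (fun c : (berLS K A[X]).G (p + 1) 0 => c.1 z) (cenM_pull_pr β a)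
  have h2 : (cenM K β).pullS p 0 z (((prM K A).pullG p 0 b).1
      ((cenM K β).toFun z)) = ((prM K A).pullG p 0 b).1 z :=
    congrArg (fun c : (berLS K A[X]).G p 0 => c.1 z) (cenM_pull_pr β b)
  have h3 : (cenM K β).pullS 1 0 z ((berLS K A[X]).dlS (X : A[X]) hd') =
      (berLS K A[X]).dlS (X - C β) hd := by
    rw [Mor.pullS_dlS]
    exact cen_dlS_congr (cenE_X β) _ _
  rw [cen_val β c z, h _ hz' hd', map_add, Mor.pullS_wdS, h1, h2, h3]

end

end Pool.Agent.TD
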