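import Pool.Agent.TD.F.Circ

/-!
# Section AR (PAPER2.md): arrangements, definitions

Forms near compact sets `Z`.  `ExOn L Z`: closed forms of type `(p,q+1)` near `Z` are exact near `Z`.
`CstOn L S c Z`: near `Z` the section `c` of type `(p,0)` is a constant form in finitely many functions
of the set `S`.  `ArrB Z0 S0 N`: the theorem AR for the class of the sets
`{y ∈ Z0 : |γ_i|_y = s_i}`, `γ_i ∈ N s_i`, of the spectrum `M(A)`.
-/

open scoped ContDiff Topology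
open Polynomial

namespace Pool.Agent.TD

section
variable {X Φ : Type} [TopologicalSpace X] (L : LogSpace X Φ)

/-- `c` is closed at the points of `Z`. -/
def ClOn {p q : ℕ} (c : L.G p q) (Z : Set X) : Prop := ∀ z ∈ Z, L.ddS p q z (c.1 z) = 0

/-- Closed forms of type `(p,q+1)` near `Z` are exact near `Z`. -/
def ExOn (Z : Set X) : Prop := ∀ (p q : ℕ) (c : L.G p (q + 1)), ClOn L c Z →
  ∃ e : L.G p q, ∀ z ∈ Z, c.1 z = L.ddS p q z (e.1 z)

/-- Near `Z` the section `c` is a constant form in finitely many functions of `S`. -/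
def CstOn {p : ℕ} (S : Set Φ) (c : L.G p 0) (Z : Set X) : Prop :=
  ∃ (m : ℕ) (u : Fin m → Φ) (θ : Raw (Fin m) p 0), (∀ i, u i ∈ S) ∧ IsCst θ ∧
    IsSF Finset.univ θ ∧ ∀ z ∈ Z, ∃ h : L.SFat z (pullR u θ), c.1 z = L.germ (pullR u θ) h

/-- Closed forms of type `(p,0)` near `Z` are constant forms in functions of `S`. -/
def CsOn (S : Set Φ) (Z : Set X) : Prop := ∀ (p : ℕ) (c : L.G p 0), ClOn L c Z → CstOn L S c Z

/-- The functions of `S` are defined at the points of `Z`. -/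
def DomOn (S : Set Φ) (Z : Set X) : Prop := ∀ f ∈ S, ∀ z ∈ Z, z ∈ L.dom f

/-- Near the points of `Z` the functions `f`, `f'` are defined and differ by a constant. -/
def EqvOn (f f' : Φ) (Z : Set X) : Prop := ∀ z ∈ Z, z ∈ L.dom f ∧ z ∈ L.dom f' ∧
  ∃ b : ℝ, ∀ᶠ z' in 𝓝 z, L.lf f z' = b + L.lf f' z'

end

section
variable {K A : Type} [NormedField K] [CommRing A] [Algebra K A]

/-- The subset `{|γ| = s : (γ, s) ∈ F}` of `Z0`. -/
def ZF (Z0 : Set (Ber K A)) (F : List (A × ℝ)) : Set (Ber K A) :=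
  {y | y ∈ Z0 ∧ ∀ x ∈ F, y.v x.1 = x.2}

/-- The functions of the conditions `F`. -/
def SFn (S0 : Set A) (F : List (A × ℝ)) : Set A := S0 ∪ {γ | ∃ x ∈ F, x.1 = γ}

/-- The conditions of the list are admissible. -/
def FOk (N : ℝ → Set A) (F : List (A × ℝ)) : Prop := ∀ x ∈ F, 0 < x.2 ∧ x.1 ∈ N x.2

/-- A class of functions bounded by `s` on `Z0`. -/
structure NOk (K : Type) {A : Type} [NormedField K] [CommRing A] [Algebra K A]
    (Z0 : Set (Ber K A)) (S0 : Set A) (N : ℝ → Set A) : Prop where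
  compact : IsCompact Z0
  dom : ∀ f ∈ S0, ∀ y ∈ Z0, y.v f ≠ 0
  sub : ∀ s, ∀ γ ∈ N s, ∀ γ' ∈ N s, γ - γ' ∈ N s
  smul : ∀ s, ∀ γ ∈ N s, ∀ a : K, a ≠ 0 → a • γ ∈ N (‖a‖ * s)
  bound : ∀ s, ∀ γ ∈ N s, ∀ y ∈ Z0, y.v γ ≤ s

/-- Theorem AR for the class of sets `ZF Z0 F`. -/
structure ArrB (K : Type) {A : Type} [NormedField K] [CommRing A] [Algebra K A]
    (Z0 : Set (Ber K A)) (S0 : Set A) (N : ℝ → Set A) : Prop extends NOk K Z0 S0 N where
  ex : ∀ F, FOk N F → ExOn (berLS K A) (ZF Z0 F)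
  cst : ∀ F, FOk N F → CsOn (berLS K A) (SFn S0 F) (ZF Z0 F)

/-- The circle bundle `{|X - β| = r}` over `Y`. -/
def cenZ (β : A) (r : ℝ) (Y : Set (Ber K A)) : Set (Ber K A[X]) :=
  {z | (prM K A).toFun z ∈ Y ∧ z.v (X - C β) = r}

/-! ### The step from `A` to `A[X]` -/

/-- `{|X| = r}` over `Z0`. -/
def upZ (r : ℝ) (Z0 : Set (Ber K A)) : Set (Ber K A[X]) :=
  {z | (prM K A).toFun z ∈ Z0 ∧ z.v X = r}

/-- The functions `X` and `C f`, `f ∈ S0`. -/
def upS (S0 : Set A) : Set A[X] := {X} ∪ C '' S0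

/-- The functions `a X + γ`, `|a| r ≤ s`, `γ ∈ N s`. -/
def upN (K : Type) {A : Type} [NormedField K] [CommRing A] [Algebra K A] (r : ℝ)
    (N : ℝ → Set A) (s : ℝ) : Set A[X] :=
  {f | ∃ (a : K) (γ : A), ‖a‖ * r ≤ s ∧ γ ∈ N s ∧ f = C (algebraMap K A a) * X + C γ}

/-- The set `{z over ZF Z0 F : |X| = r, |X - β| = r (β ∈ Bs)}`. -/
def ZX (r : ℝ) (Z0 : Set (Ber K A)) (F : List (A × ℝ)) (Bs : List A) : Set (Ber K A[X]) :=
  {z | (prM K A).toFun z ∈ ZF Z0 F ∧ z.v X = r ∧ ∀ β ∈ Bs, z.v (X - C β) = r}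

/-- The functions of `ZX`. -/
def SX (S0 : Set A) (F : List (A × ℝ)) (Bs : List A) : Set A[X] :=
  {X} ∪ C '' (SFn S0 F) ∪ {f | ∃ β ∈ Bs, f = X - C β}

end

end Pool.Agent.TD
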