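import Pool.Agent.TD.AR.Mv

/-! Section AR: theorem AR for arrangement sets. -/

open scoped ContDiff Topology NNReal

namespace Pool.Agent.TD

section
variable {K σ ι : Type} [NormedField K] [IsUltrametricDist K] [Finite σ] [Finite ι]
  (ρ : σ → ℝ≥0) (a0 : ι → K) (a : ι → σ → K) (r : ι → ℝ≥0)

theorem arrSet_eq : ∃ F : List (MvPolynomial σ K × ℝ),
    (∀ x, x ∈ F ↔ ∃ i, x = (linf (a0 i) (a i), (r i : ℝ))) ∧
      ArrSet ρ a0 a r = ZF (mvZ K fun b => (ρ b : ℝ)) F := by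
  have := Fintype.ofFinite ι
  refine ⟨(Finset.univ : Finset ι).toList.map (fun i => (linf (a0 i) (a i), (r i : ℝ))), ?_, ?_⟩
  · intro x
    rw [List.mem_map]
    constructor
    · rintro ⟨i, -, rfl⟩
      exact ⟨i, rfl⟩
    · rintro ⟨i, rfl⟩
      exact ⟨i, Finset.mem_toList.2 (Finset.mem_univ i), rfl⟩
  · ext y
    constructor
    · rintro ⟨h1, h2⟩
      refine ⟨h1, fun x hx => ?_⟩
      rw [List.mem_map] at hx
      obtain ⟨i, -, rfl⟩ := hx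
      exact h2 i
    · rintro ⟨h1, h2⟩
      refine ⟨h1, fun i => ?_⟩
      exact h2 (linf (a0 i) (a i), (r i : ℝ))
        (List.mem_map.2 ⟨i, Finset.mem_toList.2 (Finset.mem_univ i), rfl⟩)

omit [IsUltrametricDist K] [Finite σ] [Finite ι] in
theorem AR_fin_fok (hr : ∀ i, 0 < r i) (h0 : ∀ i, ‖a0 i‖ ≤ r i)
    (h1 : ∀ i b, ‖a i b‖ * ρ b ≤ r i) (F : List (MvPolynomial σ K × ℝ))
    (hF : ∀ x, x ∈ F ↔ ∃ i, x = (linf (a0 i) (a i), (r i : ℝ))) :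
    FOk (mvN K fun b => (ρ b : ℝ)) F := by
  intro x hx
  obtain ⟨i, rfl⟩ := (hF x).1 hx
  exact ⟨NNReal.coe_pos.2 (hr i), a0 i, a i, h0 i, h1 i, rfl⟩

/-- (AR) (a): closed forms of type `(p,q+1)` near the arrangement set are exact near it. -/
theorem ar_ex (hρ : ∀ b, 0 < ρ b) (hr : ∀ i, 0 < r i) (h0 : ∀ i, ‖a0 i‖ ≤ r i)
    (h1 : ∀ i b, ‖a i b‖ * ρ b ≤ r i) :
    ExOn (berLS K (MvPolynomial σ K)) (ArrSet ρ a0 a r) := by
  obtain ⟨F, hF, hE⟩ := arrSet_eq ρ a0 a r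
  rw [hE]
  exact (arrB_mv (K := K) (fun b => (ρ b : ℝ)) (fun b => NNReal.coe_pos.2 (hρ b))).ex F
    (AR_fin_fok ρ a0 a r hr h0 h1 F hF)

/-- (AR) (b): closed forms of type `(p,0)` near the arrangement set are constant forms in the
coordinates and the linear forms. -/
theorem ar_cst (hρ : ∀ b, 0 < ρ b) (hr : ∀ i, 0 < r i) (h0 : ∀ i, ‖a0 i‖ ≤ r i)
    (h1 : ∀ i b, ‖a i b‖ * ρ b ≤ r i) {p : ℕ} (c : (berLS K (MvPolynomial σ K)).G p 0)
    (hc : ClOn (berLS K (MvPolynomial σ K)) c (ArrSet ρ a0 a r)) :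
    ∃ (θ : Raw (σ ⊕ ι) p 0) (s : Finset (σ ⊕ ι)), IsCst θ ∧ IsSF s θ ∧
      ∀ y ∈ ArrSet ρ a0 a r, ∃ h : (berLS K (MvPolynomial σ K)).SFat y
        (pullR (Sum.elim MvPolynomial.X fun i => linf (a0 i) (a i)) θ),
        c.1 y = (berLS K (MvPolynomial σ K)).germ
          (pullR (Sum.elim MvPolynomial.X fun i => linf (a0 i) (a i)) θ) h := by
  classical
  obtain ⟨F, hF, hE⟩ := arrSet_eq ρ a0 a r
  rw [hE] at hc ⊢
  obtain ⟨m, u, θ, hu, hθ1, hθ2, hθ3⟩ :=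
    (arrB_mv (K := K) (fun b => (ρ b : ℝ)) (fun b => NNReal.coe_pos.2 (hρ b))).cst F
      (AR_fin_fok ρ a0 a r hr h0 h1 F hF) p c hc
  have hidx : ∀ i : Fin m, ∃ x : σ ⊕ ι,
      Sum.elim MvPolynomial.X (fun i => linf (a0 i) (a i)) x = u i := by
    intro i
    rcases hu i with h | ⟨x, hx, hx2⟩
    · obtain ⟨b, hb⟩ := h
      exact ⟨Sum.inl b, hb⟩
    · obtain ⟨j, rfl⟩ := (hF x).1 hx
      exact ⟨Sum.inr j, hx2⟩
  choose idx hidx using hidx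
  have e : pullR (Sum.elim MvPolynomial.X fun i => linf (a0 i) (a i)) (pullR idx θ) =
      pullR u θ := by
    have h2 : u = (Sum.elim MvPolynomial.X fun i => linf (a0 i) (a i)) ∘ idx :=
      funext fun i => (hidx i).symm
    rw [h2]
    rfl
  refine ⟨pullR idx θ, Finset.univ.image idx, fun x x' w v => hθ1 _ _ _ _, hθ2.pullR,
    fun y hy => ?_⟩
  rw [e]
  exact hθ3 y hy

end

end Pool.Agent.TD
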