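import Pool.Agent.TD.AR.Defs

/-! Section AR: geometry of the sets `ZX`. -/

open scoped ContDiff Topology
open Polynomial

namespace Pool.Agent.TD

section
variable {K A : Type} [NormedField K] [CommRing A] [Algebra K A] {r : ℝ} {Z0 : Set (Ber K A)}
  {S0 : Set A} {N : ℝ → Set A}

theorem zf_compact (hN : NOk K Z0 S0 N) (F : List (A × ℝ)) : IsCompact (ZF Z0 F) := by
  have h1 : ZF Z0 F = Z0 ∩ ⋂ x ∈ F, {y : Ber K A | y.v x.1 = x.2} := by
    ext y
    simp only [ZF, Set.mem_ofPred_eq, Set.mem_inter_iff, Set.mem_iInter]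
  rw [h1]
  exact hN.compact.inter_right (isClosed_iInter fun x => isClosed_iInter fun _ =>
    isClosed_eq (Ber.continuous_v x.1) continuous_const)

theorem zx_compact (hN : NOk K Z0 S0 N) (F : List (A × ℝ)) (Bs : List A) :
    IsCompact (ZX r Z0 F Bs) := by
  have h1 : ZX r Z0 F Bs = (circB K A r ∩ (prM K A).toFun ⁻¹' (ZF Z0 F)) ∩
      ⋂ β ∈ Bs, {z : Ber K A[X] | z.v (X - C β) = r} := by
    ext z
    simp only [ZX, circB, Set.mem_ofPred_eq, Set.mem_inter_iff, Set.mem_iInter,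
      Set.mem_preimage]
    constructor
    · rintro ⟨h1, h2, h3⟩
      exact ⟨⟨h2, h1⟩, h3⟩
    · rintro ⟨⟨h2, h1⟩, h3⟩
      exact ⟨h1, h2, h3⟩
  rw [h1]
  exact (isCompact_circ_pre r (zf_compact hN F)).inter_right
    (isClosed_iInter fun β => isClosed_iInter fun _ =>
      isClosed_eq (Ber.continuous_v (X - C β)) continuous_const)

theorem zx_nil (F : List (A × ℝ)) : ZX r Z0 F [] = cenZ (0 : A) r (ZF Z0 F) := by
  ext z
  simp only [ZX, cenZ, Set.mem_ofPred_eq, List.not_mem_nil, false_implies, implies_true, and_true,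
    C_0, sub_zero]

/-- The conditions `|β - β'| = r`, `β' ∈ Bs`, `|β| = r`. -/
def yF (r : ℝ) (F : List (A × ℝ)) (β : A) (Bs : List A) : List (A × ℝ) :=
  F ++ (β, r) :: Bs.map fun β' => (β - β', r)

theorem yF_ok (hN : NOk K Z0 S0 N) (hr : 0 < r) {F : List (A × ℝ)} (hF : FOk N F) {β : A}
    {Bs : List A} (hβ : β ∈ N r) (hB : ∀ β' ∈ Bs, β' ∈ N r) : FOk N (yF r F β Bs) := by
  intro x hx
  unfold yF at hx
  rcases List.mem_append.1 hx with h | h
  · exact hF x h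
  · rcases List.mem_cons.1 h with h | h
    · rw [h]
      exact ⟨hr, hβ⟩
    · obtain ⟨β', hβ', rfl⟩ := List.mem_map.1 h
      exact ⟨hr, hN.sub r β hβ β' (hB β' hβ')⟩

/-- The conditions `yF`. -/
theorem geo_yF {F : List (A × ℝ)} {β : A} {Bs : List A} {y : Ber K A} :
    y ∈ ZF Z0 (yF r F β Bs) ↔ y ∈ ZF Z0 F ∧ y.v β = r ∧ ∀ β' ∈ Bs, y.v (β - β') = r := by
  constructor
  · rintro ⟨h0, h1⟩
    refine ⟨⟨h0, fun x hx => h1 x (List.mem_append.2 (Or.inl hx))⟩, ?_, ?_⟩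
    · exact h1 (β, r) (List.mem_append.2 (Or.inr (List.mem_cons.2 (Or.inl rfl))))
    · intro β' hβ'
      exact h1 (β - β', r) (List.mem_append.2 (Or.inr (List.mem_cons.2 (Or.inr
        (List.mem_map.2 ⟨β', hβ', rfl⟩)))))
  · rintro ⟨⟨h0, h1⟩, h2, h3⟩
    refine ⟨h0, fun x hx => ?_⟩
    rcases List.mem_append.1 hx with h | h
    · exact h1 x h
    · rcases List.mem_cons.1 h with h | h
      · rw [h]
        exact h2
      · obtain ⟨β', hβ', rfl⟩ := List.mem_map.1 h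
        exact h3 β' hβ'

/-- Points of `ZX` near the centre `β` lie over the set `Y` of the conditions `yF`. -/
theorem zx_near (hN : NOk K Z0 S0 N) {F : List (A × ℝ)} {β : A} {Bs : List A} (hβ : β ∈ N r)
    (hB : ∀ β' ∈ Bs, β' ∈ N r) {z : Ber K A[X]} (hz : z ∈ ZX r Z0 F Bs)
    (h : z.v (X - C β) < r) : (prM K A).toFun z ∈ ZF Z0 (yF r F β Bs) := by
  obtain ⟨h0, hX, h2⟩ := hz
  refine geo_yF.2 ⟨h0, ?_, ?_⟩
  · rw [prM_v, ← hX]
    exact z.sub_eq (by rw [hX]; exact h)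
  · intro β' hβ'
    have h3 : z.v (X - C β' - C (β - β')) < z.v (X - C β') := by
      rw [h2 β' hβ', C_sub, show (X - C β' - (C β - C β') : A[X]) = X - C β by ring]
      exact h
    rw [prM_v, z.sub_eq h3, h2 β' hβ']

/-- Conversely, and near such points `|X| = |β|`, `|X - β'| = |β - β'|`. -/
theorem zx_disc {F : List (A × ℝ)} {β : A} {Bs : List A} {z : Ber K A[X]}
    (hz : (prM K A).toFun z ∈ ZF Z0 (yF r F β Bs)) (h : z.v (X - C β) < r) :
    z ∈ ZX r Z0 F Bs := by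
  obtain ⟨h0, h1, h2⟩ := geo_yF.1 hz
  refine ⟨h0, ?_, ?_⟩
  · have h3 : z.v (C β) = r := h1
    rw [← h3]
    refine z.sub_eq ?_
    rw [z.sub_comm, h3]
    exact h
  · intro β' hβ'
    have h3 : z.v (C (β - β')) = r := h2 β' hβ'
    rw [← h3]
    refine z.sub_eq ?_
    rw [h3, C_sub, show (C β - C β' - (X - C β') : A[X]) = C β - X by ring, z.sub_comm]
    exact h

theorem zx_disc_eqv (hr : 0 < r) {F : List (A × ℝ)} {β : A} {Bs : List A} {z : Ber K A[X]}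
    (hz : (prM K A).toFun z ∈ ZF Z0 (yF r F β Bs)) (h : z.v (X - C β) < r) :
    (∀ᶠ z' in 𝓝 z, z'.v (X : A[X]) = z'.v (C β)) ∧
      ∀ β' ∈ Bs, ∀ᶠ z' in 𝓝 z, z'.v (X - C β') = z'.v (C (β - β')) := by
  obtain ⟨h0, h1, h2⟩ := geo_yF.1 hz
  constructor
  · have h3 : z.v (C β) = r := h1
    have h4 : ∀ᶠ z' : Ber K A[X] in 𝓝 z, z'.v (X - C β) < z'.v (C β) :=
      (isOpen_lt (Ber.continuous_v _) (Ber.continuous_v _)).mem_nhds
        (show z.v (X - C β) < z.v (C β) by rw [h3]; exact h)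
    filter_upwards [h4] with z' hz'
    refine z'.sub_eq ?_
    rw [z'.sub_comm]
    exact hz'
  · intro β' hβ'
    have h3 : z.v (C (β - β')) = r := h2 β' hβ'
    have h4 : ∀ᶠ z' : Ber K A[X] in 𝓝 z, z'.v (X - C β) < z'.v (C (β - β')) :=
      (isOpen_lt (Ber.continuous_v _) (Ber.continuous_v _)).mem_nhds
        (show z.v (X - C β) < z.v (C (β - β')) by rw [h3]; exact h)
    filter_upwards [h4] with z' hz'
    refine z'.sub_eq ?_
    have h5 : (C (β - β') - (X - C β') : A[X]) = C β - X := by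
      rw [C_sub]
      ring
    rw [h5, z'.sub_comm]
    exact hz'

/-- `|X - β| ≤ r` on `ZX`. -/
theorem zx_le (hN : NOk K Z0 S0 N) {F : List (A × ℝ)} {β : A} {Bs : List A} (hβ : β ∈ N r)
    {z : Ber K A[X]} (hz : z ∈ ZX r Z0 F Bs) : z.v (X - C β) ≤ r := by
  obtain ⟨h0, hX, h2⟩ := hz
  refine (z.sub _ _).trans (max_le hX.le ?_)
  exact hN.bound r β hβ _ h0.1

/-- The functions of `ZX` are defined on it. -/
theorem zx_dom (hN : NOk K Z0 S0 N) (hr : 0 < r) {F : List (A × ℝ)} (hF : FOk N F)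
    {Bs : List A} : DomOn (berLS K A[X]) (SX S0 F Bs) (ZX r Z0 F Bs) := by
  rintro f hf z ⟨h0, hX, h2⟩
  show z.v f ≠ 0
  rcases hf with (hf | hf) | hf
  · rw [Set.mem_singleton_iff.1 hf, hX]
    exact hr.ne'
  · obtain ⟨g, hg, rfl⟩ := hf
    rcases hg with hg | ⟨x, hx, rfl⟩
    · exact hN.dom g hg _ h0.1
    · have h3 : z.v (C x.1) = x.2 := h0.2 x hx
      rw [h3]
      exact (hF x hx).1.ne'
  · obtain ⟨β, hβ, rfl⟩ := hf
    rw [h2 β hβ]
    exact hr.ne'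

/-- Choice of the radius: an open set which contains `ZX (β :: Bs)` contains `{|X - β| ≥ r'}`. -/
theorem zx_radius (hN : NOk K Z0 S0 N) (hr : 0 < r) {F : List (A × ℝ)} {β : A} {Bs : List A}
    (hβ : β ∈ N r) {U : Set (Ber K A[X])} (hU : IsOpen U) (h : ZX r Z0 F (β :: Bs) ⊆ U) :
    ∃ r' : ℝ, 0 < r' ∧ r' < r ∧ ∀ z ∈ ZX r Z0 F Bs, r' ≤ z.v (X - C β) → z ∈ U := by
  have hK : IsCompact (ZX r Z0 F Bs \ U) := (zx_compact hN F Bs).diff hU
  have hlt : ∀ z ∈ ZX r Z0 F Bs \ U, z.v (X - C β) < r := by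
    rintro z ⟨hz, hzU⟩
    refine lt_of_le_of_ne (zx_le hN hβ hz) fun he => hzU (h ?_)
    obtain ⟨h0, hX, h2⟩ := hz
    refine ⟨h0, hX, fun β' hβ' => ?_⟩
    rcases List.mem_cons.1 hβ' with h3 | h3
    · rw [h3]
      exact he
    · exact h2 β' h3
  rcases (ZX r Z0 F Bs \ U).eq_empty_or_nonempty with he | hne
  · refine ⟨r / 2, half_pos hr, half_lt_self hr, fun z hz _ => ?_⟩
    by_contra hzU
    have h3 : z ∈ ZX r Z0 F Bs \ U := ⟨hz, hzU⟩
    rw [he] at h3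
    exact h3
  · obtain ⟨z0, hz0, hmax⟩ := hK.exists_isMaxOn hne (Ber.continuous_v (X - C β)).continuousOn
    have h3 := hlt z0 hz0
    have h4 := z0.nonneg (X - C β)
    refine ⟨(z0.v (X - C β) + r) / 2, by linarith, by linarith, fun z hz hle => ?_⟩
    by_contra hzU
    have h5 : z.v (X - C β) ≤ z0.v (X - C β) := hmax ⟨hz, hzU⟩
    linarith

end

end Pool.Agent.TD
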