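import Pool.Agent.TD.AR.Geo
import Pool.Agent.TD.AR.Cal
import Pool.Agent.TD.AR.Cen

/-! Section AR: forms of type `(p,0)` near the sets `ZX`, type `(p+1,0)`. -/

open scoped ContDiff Topology
open Polynomial

namespace Pool.Agent.TD

section
variable {Φ Φ' : Type} {p q : ℕ}

theorem ics1_cst_wdg1 {η : Raw Φ 1 0} {θ : Raw Φ p q} (h : IsCst η) (k : IsCst θ) :
    IsCst (wdg1 η θ) := by
  intro x x' w v
  unfold wdg1
  refine Finset.sum_congr rfl fun j _ => ?_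
  rw [h x x', k x x']

theorem ics1_cst_pullR {θ : Raw Φ' p q} (u : Φ' → Φ) (k : IsCst θ) : IsCst (pullR u θ) :=
  fun _ _ _ _ => k _ _ _ _

theorem ics1_germ_closed {X : Type} [TopologicalSpace X] (L : LogSpace X Φ) {z : X}
    {θ : Raw Φ p q} (k : IsCst θ) (h : L.SFat z θ) : L.ddS p q z (L.germ θ h) = 0 := by
  rw [L.ddS_germ, L.germ_congr (dd_cst k) _ (LogSpace.SFat.zero L), L.germ_zero]

theorem ics1_sfat_dlg {X : Type} [TopologicalSpace X] (L : LogSpace X Φ) {z : X} {f : Φ}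
    (h : z ∈ L.dom f) : L.SFat z (dlg f) :=
  ⟨{f}, isSF_dlg (Finset.mem_singleton_self f), by simpa using h⟩

end

section
variable {K A : Type} [NormedField K] [CommRing A] [Algebra K A] {r : ℝ} {Z0 : Set (Ber K A)}
  {S0 : Set A} {N : ℝ → Set A}

/-- The case of type `(p+1,0)`. -/
theorem zx_cs_cons1 (gA : Good K A) (gX : Good K A[X]) (hU : ∀ r, 0 < r → CircU K A r)
    (hr : 0 < r) (hN : ArrB K Z0 S0 N) {F : List (A × ℝ)} (hF : FOk N F) {β : A} {Bs : List A}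
    (hβ : β ∈ N r) (hB : ∀ β' ∈ Bs, β' ∈ N r)
    (ih : CsOn (berLS K A[X]) (SX S0 F Bs) (ZX r Z0 F Bs)) {p : ℕ}
    (c : (berLS K A[X]).G (p + 1) 0)
    (hc : ClOn (berLS K A[X]) c (ZX r Z0 F (β :: Bs))) :
    CstOn (berLS K A[X]) (SX S0 F (β :: Bs)) c (ZX r Z0 F (β :: Bs)) := by
  classical
  have := gX.lc
  obtain ⟨r', hr'0, hr'r, hU'⟩ := zx_radius hN.toNOk hr hβ (isOpen_cl c) hc
  have hcont : Continuous fun z : Ber K A[X] => z.v (X - C β) := Ber.continuous_v _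
  have hScomp : IsCompact (ZX r Z0 F Bs) := zx_compact hN.toNOk F Bs
  have hYcomp : IsCompact (ZF Z0 (yF r F β Bs)) := zf_compact hN.toNOk _
  set S := ZX r Z0 F Bs with hS
  set Y := ZF Z0 (yF r F β Bs) with hY
  set Q : Set (Ber K A[X]) := S ∩ {z | r' ≤ z.v (X - C β)} with hQ
  set D : Set (Ber K A[X]) := S ∩ ((prM K A).toFun ⁻¹' Y ∩ {z | z.v (X - C β) ≤ r'}) with hD
  have hQcomp : IsCompact Q := hScomp.inter_right (isClosed_le continuous_const hcont)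
  have hDcomp : IsCompact D := hScomp.inter_right
    ((hYcomp.isClosed.preimage (prM K A).cont).inter (isClosed_le hcont continuous_const))
  have hcover : ∀ z ∈ S, z ∈ Q ∨ z ∈ D := by
    intro z hz
    rcases le_total r' (z.v (X - C β)) with h | h
    · exact Or.inl ⟨hz, h⟩
    · exact Or.inr ⟨hz, zx_near hN.toNOk hβ hB hz (h.trans_lt hr'r), h⟩
  have hO : ∀ z ∈ cenZ β r' Y, z ∈ S ∧ z ∈ Q ∧ z ∈ D := by
    rintro z ⟨h1, h2⟩
    have h3 : z ∈ S := zx_disc h1 (by rw [h2]; exact hr'r)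
    exact ⟨h3, ⟨h3, h2.ge⟩, ⟨h3, h1, h2.le⟩⟩
  have hQD : ∀ z ∈ Q ∩ D, z ∈ cenZ β r' Y := by
    rintro z ⟨⟨h1, h2⟩, -, h3, h4⟩
    exact ⟨h3, le_antisymm h4 h2⟩
  have hclQ : ∀ z ∈ Q, (berLS K A[X]).ddS (p + 1) 0 z (c.1 z) = 0 := fun z hz => hU' z hz.1 hz.2
  obtain ⟨x0, v, hx0, hv, hcO⟩ := cen_cst1 gA gX (hU r' hr'0) hr'0 hYcomp β c
    (fun z hz => hclQ z (hO z hz).2.1)
  obtain ⟨m, u, θ, hu, hθc, hθs, hvθ⟩ := hN.cst (yF r F β Bs)
    (yF_ok hN.toNOk hr hF hβ hB) p v hv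
  have hdom := zx_dom hN.toNOk hr hF (Bs := Bs)
  have hex : ∀ i, ∃ f' ∈ SX S0 F Bs, EqvOn (berLS K A[X]) (C (u i)) f' D := by
    intro i
    have same : u i ∈ SFn S0 F → ∃ f' ∈ SX S0 F Bs, EqvOn (berLS K A[X]) (C (u i)) f' D := by
      intro h
      have h1 : (C (u i) : A[X]) ∈ SX S0 F Bs := Or.inl (Or.inr ⟨u i, h, rfl⟩)
      refine ⟨C (u i), h1, fun z hz => ?_⟩
      have h2 := hdom _ h1 z hz.1
      exact ⟨h2, h2, 0, Filter.Eventually.of_forall fun z' => by rw [zero_add]⟩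
    have other : ∀ f' ∈ SX S0 F Bs, (∀ z ∈ D, ∀ᶠ z' in 𝓝 z, z'.v f' = z'.v (C (u i))) →
        ∃ f' ∈ SX S0 F Bs, EqvOn (berLS K A[X]) (C (u i)) f' D := by
      intro f' h1 h2
      refine ⟨f', h1, fun z hz => ?_⟩
      have h3 := hdom _ h1 z hz.1
      have h4 := (h2 z hz).self_of_nhds
      refine ⟨?_, h3, 0, (h2 z hz).mono fun z' hz' => ?_⟩
      · show z.v (C (u i)) ≠ 0
        rw [← h4]
        exact h3
      · show Real.log (z'.v (C (u i))) = 0 + Real.log (z'.v f')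
        rw [zero_add, hz']
    rcases hu i with h | ⟨x, hx, hxu⟩
    · exact same (Or.inl h)
    · rcases List.mem_append.1 hx with hx | hx
      · exact same (Or.inr ⟨x, hx, hxu⟩)
      · rcases List.mem_cons.1 hx with hx | hx
        · have e : u i = β := by rw [← hxu, hx]
          refine other X (Or.inl (Or.inl rfl)) fun z hz => ?_
          rw [e]
          exact (zx_disc_eqv hr hz.2.1 (lt_of_le_of_lt hz.2.2 hr'r)).1
        · obtain ⟨β', hβ', rfl⟩ := List.mem_map.1 hx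
          have e : u i = β - β' := hxu.symm
          refine other (X - C β') (Or.inr ⟨β', hβ', rfl⟩) fun z hz => ?_
          rw [e]
          exact (zx_disc_eqv hr hz.2.1 (lt_of_le_of_lt hz.2.2 hr'r)).2 β' hβ'
  choose u' hu' heqv using hex
  have hsf : ∀ z ∈ S, (berLS K A[X]).SFat z (pullR u' θ) := fun z hz =>
    sfat_pullR _ hθs fun i _ => hdom _ (hu' i) z hz
  have hQdom : ∀ z ∈ Q, z ∈ (berLS K A[X]).dom (X - C β : A[X]) := by
    intro z hz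
    have h : r' ≤ z.v (X - C β) := hz.2
    exact (hr'0.trans_le h).ne'
  have hsf1 : ∀ z ∈ Q, (berLS K A[X]).SFat z (wdg1 (dlg (X - C β : A[X])) (pullR u' θ)) :=
    fun z hz => LogSpace.SFat.wdg1 _ (ics1_sfat_dlg _ (hQdom z hz)) (hsf z hz.1)
  obtain ⟨s0, hs0⟩ := exists_secR (berLS K A[X]) gX.cut hQcomp
    (θ := pullR u' θ) (fun z hz => hsf z hz.1)
  obtain ⟨s, hs⟩ := exists_secR (berLS K A[X]) gX.cut hQcomp hsf1
  -- the section `s` is `dlog |X - β| ^ s0` on `Q`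
  have hss0 : ∀ z ∈ Q, ∀ k : z ∈ (berLS K A[X]).dom (X - C β : A[X]),
      s.1 z = (berLS K A[X]).wdS p 0 z ((berLS K A[X]).dlS (X - C β) k) (s0.1 z) := by
    intro z hz k
    obtain ⟨k1, e1⟩ := hs z hz
    obtain ⟨k2, e2⟩ := hs0 z hz
    rw [e1, e2]
    rfl
  have hscl : ∀ z ∈ Q, (berLS K A[X]).ddS (p + 1) 0 z (s.1 z) = 0 := by
    intro z hz
    obtain ⟨k1, e1⟩ := hs z hz
    rw [e1]
    exact ics1_germ_closed _ (ics1_cst_wdg1 (fun _ _ _ _ => rfl) (ics1_cst_pullR u' hθc)) k1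
  -- on `O`
  have hcO' : ∀ z ∈ cenZ β r' Y, (c - s).1 z = ((prM K A).pullG (p + 1) 0 x0).1 z := by
    intro z hz
    obtain ⟨h1, h2, h3⟩ := hO z hz
    have hval : (c - s).1 z = c.1 z - s.1 z := rfl
    have k := hQdom z h2
    have e : ((prM K A).pullG p 0 v).1 z = s0.1 z := by
      obtain ⟨k2, e2⟩ := hs0 z h2
      obtain ⟨k3, e3⟩ := hvθ _ hz.1
      rw [e2, Mor.pullG_val, e3, Mor.pullS_germ, LogSpace.germ_eq_iff]
      exact van_sub (berLS K A[X]) hθc hθs (u := fun i => C (u i)) (u' := u')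
        fun i _ => heqv i z h3
    rw [hval, hcO z hz k, hss0 z h2 k, e]
    abel
  obtain ⟨ct, hct1, hct2⟩ := (berLS K A[X]).glue gX.cut hQcomp hDcomp (c - s)
    ((prM K A).pullG (p + 1) 0 x0) (fun z hz => hcO' z (hQD z hz))
  have hctcl : ClOn (berLS K A[X]) ct S := by
    intro z hz
    rcases hcover z hz with h | h
    · rw [hct1 z h]
      have hval : (c - s).1 z = c.1 z - s.1 z := rfl
      rw [hval, map_sub, hclQ z h, hscl z h, sub_zero]
    · rw [hct2 z h]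
      exact ClOn.pull (prM K A) hx0 z h.2.1
  have hTS : ZX r Z0 F (β :: Bs) ⊆ S := by
    rintro z ⟨h1, h2, h3⟩
    exact ⟨h1, h2, fun β' h' => h3 β' (List.mem_cons_of_mem _ h')⟩
  have hTQ : ZX r Z0 F (β :: Bs) ⊆ Q := by
    intro z hz
    refine ⟨hTS hz, ?_⟩
    have h1 : z.v (X - C β) = r := hz.2.2 β (by simp)
    show r' ≤ z.v (X - C β)
    rw [h1]
    exact hr'r.le
  have hSX : SX S0 F Bs ⊆ SX S0 F (β :: Bs) := by
    rintro f (h | ⟨β', hβ', rfl⟩)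
    · exact Or.inl h
    · exact Or.inr ⟨β', List.mem_cons_of_mem _ hβ', rfl⟩
  have hcs0 : CstOn (berLS K A[X]) (SX S0 F (β :: Bs)) s0 (ZX r Z0 F (β :: Bs)) :=
    ⟨m, u', θ, fun i => hSX (hu' i), hθc, hθs, fun z hz => hs0 z (hTQ hz)⟩
  have hcs : CstOn (berLS K A[X]) (SX S0 F (β :: Bs)) s (ZX r Z0 F (β :: Bs)) :=
    hcs0.wd (f := X - C β) (Or.inr ⟨β, by simp, rfl⟩)
      fun z hz => ⟨hQdom z (hTQ hz), hss0 z (hTQ hz) _⟩
  have hcct : CstOn (berLS K A[X]) (SX S0 F (β :: Bs)) ct (ZX r Z0 F (β :: Bs)) :=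
    (ih (p + 1) ct hctcl).mono hSX hTS
  refine (hcct.add hcs).congr fun z hz => ?_
  have h1 : (ct + s).1 z = ct.1 z + s.1 z := rfl
  have h2 : (c - s).1 z = c.1 z - s.1 z := rfl
  rw [h1, hct1 z (hTQ hz), h2, sub_add_cancel]

end

end Pool.Agent.TD
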