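import Pool.Agent.TD.AR.Ics0
import Pool.Agent.TD.AR.Ics1

/-! Section AR: forms of type `(p,0)` near the sets `ZX`, induction on the number of centres. -/

open scoped ContDiff Topology
open Polynomial

namespace Pool.Agent.TD

section
variable {K A : Type} [NormedField K] [CommRing A] [Algebra K A] {r : ℝ} {Z0 : Set (Ber K A)}
  {S0 : Set A} {N : ℝ → Set A}

theorem zx_cs (gA : Good K A) (gX : Good K A[X]) (hU : ∀ r, 0 < r → CircU K A r)
    (hr : 0 < r) (hN : ArrB K Z0 S0 N) {F : List (A × ℝ)} (hF : FOk N F) :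
    ∀ Bs : List A, (∀ β ∈ Bs, β ∈ N r) → CsOn (berLS K A[X]) (SX S0 F Bs) (ZX r Z0 F Bs)
  | [], _ => zx_cs_nil gA gX hU hr hN hF
  | β :: Bs, h => by
      have ih := zx_cs gA gX hU hr hN hF Bs fun β' h' => h β' (List.mem_cons_of_mem _ h')
      have h1 := h β (by simp)
      have h2 := fun β' h' => h β' (List.mem_cons_of_mem _ h')
      intro p c hc
      match p, c, hc with
      | 0, c, hc => exact zx_cs_cons0 gA gX hU hr hN hF h1 h2 ih c hc
      | p + 1, c, hc => exact zx_cs_cons1 gA gX hU hr hN hF h1 h2 ih c hc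

end

end Pool.Agent.TD
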