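import Pool.Agent.TD.AR.Geo
import Pool.Agent.TD.AR.Cal
import Pool.Agent.TD.AR.Cen

/-! Section AR: forms of type `(p,0)` near the sets `ZX`, no centre, functions. -/

open scoped ContDiff Topology
open Polynomial

namespace Pool.Agent.TD

theorem ics0_dlS_congr {X Φ : Type} [TopologicalSpace X] (L : LogSpace X Φ) {z : X} {f f' : Φ}
    (e : f = f') (h : z ∈ L.dom f) (h' : z ∈ L.dom f') : L.dlS f h = L.dlS f' h' := by
  subst e
  rfl

section
variable {K A : Type} [NormedField K] [CommRing A] [Algebra K A] {r : ℝ} {Z0 : Set (Ber K A)}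
  {S0 : Set A} {N : ℝ → Set A}

theorem zx_cs_nil (gA : Good K A) (gX : Good K A[X]) (hU : ∀ r, 0 < r → CircU K A r) (hr : 0 < r)
    (hN : ArrB K Z0 S0 N) {F : List (A × ℝ)} (hF : FOk N F) :
    CsOn (berLS K A[X]) (SX S0 F []) (ZX r Z0 F []) := by
  rw [zx_nil]
  intro p c hc
  have hcomp : IsCompact (ZF Z0 F) := zf_compact hN.toNOk F
  have hpull : ∀ (q : ℕ) (a : (berLS K A).G q 0), ClOn (berLS K A) a (ZF Z0 F) →
      CstOn (berLS K A[X]) (SX S0 F []) ((prM K A).pullG q 0 a) (cenZ (0 : A) r (ZF Z0 F)) := by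
    intro q a ha
    refine ((hN.cst F hF q a ha).pull (prM K A)).mono ?_ fun z hz => hz.1
    rintro f ⟨g, hg, rfl⟩
    exact Or.inl (Or.inr ⟨g, hg, rfl⟩)
  cases p with
  | zero =>
    obtain ⟨a, ha, hca⟩ := cen_cst0 gA gX (hU r hr) hcomp 0 c hc
    exact (hpull 0 a ha).congr fun z hz => (hca z hz).symm
  | succ p =>
    obtain ⟨a, b, ha, hb, hcab⟩ := cen_cst1 gA gX (hU r hr) hr hcomp 0 c hc
    obtain ⟨ξ, hξ⟩ := exists_xi K A hr
    have hX : (X - C (0 : A) : A[X]) = X := by rw [C_0, sub_zero]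
    have hcirc : ∀ z ∈ cenZ (0 : A) r (ZF Z0 F), z ∈ circB K A r := by
      intro z hz
      have h := hz.2
      rwa [hX] at h
    have h1 : CstOn (berLS K A[X]) (SX S0 F [])
        ((berLS K A[X]).wdG p 0 ξ ((prM K A).pullG p 0 b)) (cenZ (0 : A) r (ZF Z0 F)) := by
      refine (hpull p b hb).wd (f := X) (Or.inl (Or.inl rfl)) fun z hz => ?_
      have k : z ∈ (berLS K A[X]).dom (X : A[X]) := dom_of_circ hr (hcirc z hz)
      refine ⟨k, ?_⟩
      rw [LogSpace.wdG_val, hξ z (hcirc z hz) k]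
    refine ((hpull (p + 1) a ha).add h1).congr fun z hz => ?_
    have k : z ∈ (berLS K A[X]).dom (X : A[X]) := dom_of_circ hr (hcirc z hz)
    have k' : z ∈ (berLS K A[X]).dom (X - C (0 : A) : A[X]) := by rw [hX]; exact k
    have h2 : ((prM K A).pullG (p + 1) 0 a +
        (berLS K A[X]).wdG p 0 ξ ((prM K A).pullG p 0 b)).1 z =
        ((prM K A).pullG (p + 1) 0 a).1 z +
          ((berLS K A[X]).wdG p 0 ξ ((prM K A).pullG p 0 b)).1 z := rfl
    rw [h2, hcab z hz k', LogSpace.wdG_val, hξ z (hcirc z hz) k,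
      ics0_dlS_congr (berLS K A[X]) hX k' k]

/-- The case of functions (type `(0,0)`). -/
theorem zx_cs_cons0 (gA : Good K A) (gX : Good K A[X]) (hU : ∀ r, 0 < r → CircU K A r)
    (hr : 0 < r) (hN : ArrB K Z0 S0 N) {F : List (A × ℝ)} (hF : FOk N F) {β : A} {Bs : List A}
    (hβ : β ∈ N r) (hB : ∀ β' ∈ Bs, β' ∈ N r)
    (ih : CsOn (berLS K A[X]) (SX S0 F Bs) (ZX r Z0 F Bs)) (c : (berLS K A[X]).G 0 0)
    (hc : ClOn (berLS K A[X]) c (ZX r Z0 F (β :: Bs))) :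
    CstOn (berLS K A[X]) (SX S0 F (β :: Bs)) c (ZX r Z0 F (β :: Bs)) := by
  have := gX.lc
  obtain ⟨r', hr'0, hr'r, hr'⟩ := zx_radius hN.toNOk hr hβ (isOpen_cl c) (fun z hz => hc z hz)
  have hS : IsCompact (ZX r Z0 F Bs) := zx_compact hN.toNOk F Bs
  have hY : IsCompact (ZF Z0 (yF r F β Bs)) := zf_compact hN.toNOk _
  have hv : Continuous fun z : Ber K A[X] => z.v (X - C β) := Ber.continuous_v _
  have hQ : IsCompact (ZX r Z0 F Bs ∩ {z | r' ≤ z.v (X - C β)}) :=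
    hS.inter_right (isClosed_le continuous_const hv)
  have hD : IsCompact (ZX r Z0 F Bs ∩ ((prM K A).toFun ⁻¹' (ZF Z0 (yF r F β Bs)) ∩
      {z | z.v (X - C β) ≤ r'})) :=
    hS.inter_right ((hY.isClosed.preimage (prM K A).cont).inter
      (isClosed_le hv continuous_const))
  have hcO : ClOn (berLS K A[X]) c (cenZ β r' (ZF Z0 (yF r F β Bs))) := by
    rintro z ⟨hz1, hz2⟩
    exact hr' z (zx_disc hz1 (hz2.trans_lt hr'r)) hz2.ge
  obtain ⟨a, ha, hca⟩ := cen_cst0 gA gX (hU r' hr'0) hY β c hcO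
  obtain ⟨c', hc1, hc2⟩ := (berLS K A[X]).glue gX.cut hQ hD c ((prM K A).pullG 0 0 a) (by
    rintro z ⟨⟨-, h1⟩, -, h2, h3⟩
    exact hca z ⟨h2, le_antisymm h3 h1⟩)
  have hcl : ClOn (berLS K A[X]) c' (ZX r Z0 F Bs) := by
    intro z hz
    rcases le_or_gt r' (z.v (X - C β)) with h | h
    · rw [hc1 z ⟨hz, h⟩]
      exact hr' z hz h
    · have hzY := zx_near hN.toNOk hβ hB hz (h.trans hr'r)
      rw [hc2 z ⟨hz, hzY, h.le⟩]
      exact ClOn.pull (prM K A) ha z hzY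
  have hTS : ZX r Z0 F (β :: Bs) ⊆ ZX r Z0 F Bs := by
    rintro z ⟨h1, h2, h3⟩
    exact ⟨h1, h2, fun β' h' => h3 β' (List.mem_cons_of_mem _ h')⟩
  have hSX : SX S0 F Bs ⊆ SX S0 F (β :: Bs) := by
    rintro f (h | ⟨β', hβ', rfl⟩)
    · exact Or.inl h
    · exact Or.inr ⟨β', List.mem_cons_of_mem _ hβ', rfl⟩
  refine ((ih 0 c' hcl).mono hSX hTS).congr fun z hz => ?_
  have hzβ : z.v (X - C β) = r := hz.2.2 β List.mem_cons_self
  exact hc1 z ⟨hTS hz, show r' ≤ z.v (X - C β) from hzβ ▸ hr'r.le⟩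

end

end Pool.Agent.TD
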