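import Pool.Agent.TD.AR.Geo
import Pool.Agent.TD.AR.Cal
import Pool.Agent.TD.AR.Cen

/-! Section AR: exactness for the sets `ZX`, induction on the number of centres. -/

open scoped ContDiff Topology
open Polynomial

namespace Pool.Agent.TD

section
variable {K A : Type} [NormedField K] [CommRing A] [Algebra K A] {r : ℝ} {Z0 : Set (Ber K A)}
  {S0 : Set A} {N : ℝ → Set A}

theorem zx_ex_nil (gA : Good K A) (gX : Good K A[X]) (hU : ∀ r, 0 < r → CircU K A r) (hr : 0 < r)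
    (hN : ArrB K Z0 S0 N) {F : List (A × ℝ)} (hF : FOk N F) :
    ExOn (berLS K A[X]) (ZX r Z0 F []) := by
  rw [zx_nil]
  exact cen_ex gA gX (hU r hr) hr (zf_compact hN.toNOk F) (hN.ex F hF) 0

theorem zx_ex_cons (gA : Good K A) (gX : Good K A[X]) (hU : ∀ r, 0 < r → CircU K A r)
    (hr : 0 < r) (hN : ArrB K Z0 S0 N) {F : List (A × ℝ)} (hF : FOk N F) {β : A} {Bs : List A}
    (hβ : β ∈ N r) (hB : ∀ β' ∈ Bs, β' ∈ N r) (ih : ExOn (berLS K A[X]) (ZX r Z0 F Bs)) :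
    ExOn (berLS K A[X]) (ZX r Z0 F (β :: Bs)) := by
  intro p q c hc
  have := gX.lc
  obtain ⟨r', hr'0, hr'r, hr'⟩ := zx_radius hN.toNOk hr hβ (isOpen_cl c) (fun z hz => hc z hz)
  have hS : IsCompact (ZX r Z0 F Bs) := zx_compact hN.toNOk F Bs
  have hY : IsCompact (ZF Z0 (yF r F β Bs)) := zf_compact hN.toNOk _
  have hYok : FOk N (yF r F β Bs) := yF_ok hN.toNOk hr hF hβ hB
  have hv : Continuous fun z : Ber K A[X] => z.v (X - C β) := Ber.continuous_v _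
  have hQ : IsCompact (ZX r Z0 F Bs ∩ {z | r' ≤ z.v (X - C β)}) :=
    hS.inter_right (isClosed_le continuous_const hv)
  have hD : IsCompact (ZX r Z0 F Bs ∩ ((prM K A).toFun ⁻¹' (ZF Z0 (yF r F β Bs)) ∩
      {z | z.v (X - C β) ≤ r'})) :=
    hS.inter_right ((hY.isClosed.preimage (prM K A).cont).inter
      (isClosed_le hv continuous_const))
  have hcO : ClOn (berLS K A[X]) c (cenZ β r' (ZF Z0 (yF r F β Bs))) := by
    rintro z ⟨hz1, hz2⟩
    exact hr' z (zx_disc hz1 (hz2.trans_lt hr'r)) hz2.ge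
  obtain ⟨e, he⟩ := cen_ex gA gX (hU r' hr'0) hr'0 hY (hN.ex _ hYok) β p q c hcO
  obtain ⟨c', hc1, hc2⟩ := (berLS K A[X]).glue gX.cut hQ hD c ((berLS K A[X]).ddG p q e) (by
    rintro z ⟨⟨-, h1⟩, -, h2, h3⟩
    exact he z ⟨h2, le_antisymm h3 h1⟩)
  have hcl : ClOn (berLS K A[X]) c' (ZX r Z0 F Bs) := by
    intro z hz
    rcases le_or_gt r' (z.v (X - C β)) with h | h
    · rw [hc1 z ⟨hz, h⟩]
      exact hr' z hz h
    · rw [hc2 z ⟨hz, zx_near hN.toNOk hβ hB hz (h.trans hr'r), h.le⟩]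
      exact (berLS K A[X]).ddS_ddS _
  obtain ⟨e2, he2⟩ := ih p q c' hcl
  refine ⟨e2, fun z hz => ?_⟩
  have hzS : z ∈ ZX r Z0 F Bs :=
    ⟨hz.1, hz.2.1, fun β' h' => hz.2.2 β' (List.mem_cons_of_mem _ h')⟩
  have hzβ : z.v (X - C β) = r := hz.2.2 β List.mem_cons_self
  rw [← hc1 z ⟨hzS, show r' ≤ z.v (X - C β) from hzβ ▸ hr'r.le⟩]
  exact he2 z hzS

theorem zx_ex (gA : Good K A) (gX : Good K A[X]) (hU : ∀ r, 0 < r → CircU K A r)
    (hr : 0 < r) (hN : ArrB K Z0 S0 N) {F : List (A × ℝ)} (hF : FOk N F) :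
    ∀ Bs : List A, (∀ β ∈ Bs, β ∈ N r) → ExOn (berLS K A[X]) (ZX r Z0 F Bs)
  | [], _ => zx_ex_nil gA gX hU hr hN hF
  | β :: Bs, h => zx_ex_cons gA gX hU hr hN hF (h β (by simp))
      (fun β' h' => h β' (List.mem_cons_of_mem _ h'))
      (zx_ex gA gX hU hr hN hF Bs fun β' h' => h β' (List.mem_cons_of_mem _ h'))

end

end Pool.Agent.TD
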