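import Pool.Agent.TD.AR.Cal
import Pool.Agent.TD.F.Iso

/-! Section AR: transport along isomorphisms. -/

open scoped ContDiff Topology

namespace Pool.Agent.TD

/-- The conditions transported by the inverse of an isomorphism. -/
def isoF {K B B' : Type} [NormedField K] [CommRing B] [Algebra K B] [CommRing B']
    [Algebra K B'] (e : B ≃ₐ[K] B') (F : List (B' × ℝ)) : List (B × ℝ) :=
  F.map (fun x => (e.symm x.1, x.2))

theorem isoF_FOk {K B B' : Type} [NormedField K] [CommRing B] [Algebra K B] [CommRing B']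
    [Algebra K B'] {N : ℝ → Set B} (e : B ≃ₐ[K] B') {F : List (B' × ℝ)}
    (hF : FOk (fun s => e '' N s) F) : FOk N (isoF e F) := by
  intro x hx
  obtain ⟨y, hy, rfl⟩ := List.mem_map.1 hx
  obtain ⟨h1, γ, hγ, h2⟩ := hF y hy
  refine ⟨h1, ?_⟩
  show e.symm y.1 ∈ N y.2
  rw [← h2, e.symm_apply_apply]
  exact hγ

theorem isoF_ZF {K B B' : Type} [NormedField K] [CommRing B] [Algebra K B] [CommRing B']
    [Algebra K B'] (e : B ≃ₐ[K] B') (Z0 : Set (Ber K B)) (F : List (B' × ℝ)) :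
    ZF ((berM (e : B →ₐ[K] B')).toFun ⁻¹' Z0) F =
      (berM (e : B →ₐ[K] B')).toFun ⁻¹' ZF Z0 (isoF e F) := by
  ext z
  constructor
  · rintro ⟨h1, h2⟩
    refine ⟨h1, ?_⟩
    intro x hx
    obtain ⟨y, hy, rfl⟩ := List.mem_map.1 hx
    show z.v (e (e.symm y.1)) = y.2
    rw [e.apply_symm_apply]
    exact h2 y hy
  · rintro ⟨h1, h2⟩
    refine ⟨h1, ?_⟩
    intro y hy
    have h3 : z.v (e (e.symm y.1)) = y.2 := h2 (e.symm y.1, y.2) (List.mem_map.2 ⟨y, hy, rfl⟩)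
    rw [e.apply_symm_apply] at h3
    exact h3

theorem isoF_SFn {K B B' : Type} [NormedField K] [CommRing B] [Algebra K B] [CommRing B']
    [Algebra K B'] (e : B ≃ₐ[K] B') (S0 : Set B) (F : List (B' × ℝ)) :
    (berM (e : B →ₐ[K] B')).ix '' SFn S0 (isoF e F) ⊆ SFn (e '' S0) F := by
  rintro _ ⟨f, hf, rfl⟩
  rcases hf with hf | ⟨x, hx, rfl⟩
  · exact Or.inl ⟨f, hf, rfl⟩
  · obtain ⟨y, hy, rfl⟩ := List.mem_map.1 hx
    refine Or.inr ⟨y, hy, ?_⟩
    exact (e.apply_symm_apply y.1).symm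

theorem iso_ClOn {K B B' : Type} [NormedField K] [CommRing B] [Algebra K B] [CommRing B']
    [Algebra K B'] (e : B ≃ₐ[K] B') {p q : ℕ} {c : (berLS K B').G p q} {Z : Set (Ber K B)}
    (hc : ClOn (berLS K B') c ((berM (e : B →ₐ[K] B')).toFun ⁻¹' Z)) :
    ClOn (berLS K B) ((berM (e.symm : B' →ₐ[K] B)).pullG p q c) Z := by
  have h1 := ClOn.pull (berM (e.symm : B' →ₐ[K] B)) hc
  intro y hy
  refine h1 y ?_
  show (berM (e : B →ₐ[K] B')).toFun ((berM (e.symm : B' →ₐ[K] B)).toFun y) ∈ Z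
  have h2 : (berM (e : B →ₐ[K] B')).toFun ((berM (e.symm : B' →ₐ[K] B)).toFun y) = y :=
    berM_inv_toFun e.symm y
  rw [h2]
  exact hy

theorem ArrB.iso {K B B' : Type} [NormedField K] [CommRing B] [Algebra K B] [CommRing B']
    [Algebra K B'] {Z0 : Set (Ber K B)} {S0 : Set B} {N : ℝ → Set B} (h : ArrB K Z0 S0 N)
    (e : B ≃ₐ[K] B') :
    ArrB K ((berM (e : B →ₐ[K] B')).toFun ⁻¹' Z0) (e '' S0) (fun s => e '' N s) := by
  refine ⟨⟨?_, ?_, ?_, ?_, ?_⟩, ?_, ?_⟩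
  · exact ((berM_homeo e).homeomorph.isCompact_preimage).2 h.compact
  · rintro _ ⟨f, hf, rfl⟩ y hy
    exact h.dom f hf _ hy
  · rintro s _ ⟨γ, hγ, rfl⟩ _ ⟨γ', hγ', rfl⟩
    exact ⟨γ - γ', h.sub s γ hγ γ' hγ', map_sub e γ γ'⟩
  · rintro s _ ⟨γ, hγ, rfl⟩ a ha
    exact ⟨a • γ, h.smul s γ hγ a ha, map_smul e a γ⟩
  · rintro s _ ⟨γ, hγ, rfl⟩ y hy
    exact h.bound s γ hγ _ hy
  · intro F hF p q c hc
    rw [isoF_ZF] at hc ⊢
    obtain ⟨f, hf⟩ := h.ex (isoF e F) (isoF_FOk e hF) p q _ (iso_ClOn e hc)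
    refine ⟨(berM (e : B →ₐ[K] B')).pullG p q f, ?_⟩
    intro z hz
    have h1 := hf _ hz
    have h2 : c.1 z = (berM (e : B →ₐ[K] B')).pullS p (q + 1) z
        (((berM (e.symm : B' →ₐ[K] B)).pullG p (q + 1) c).1
          ((berM (e : B →ₐ[K] B')).toFun z)) := by
      rw [← Mor.pullG_val, berM_pull_inv]
    rw [h2, h1, Mor.pullG_val]
    exact (berM (e : B →ₐ[K] B')).pullS_ddS (z := z) (f.1 ((berM (e : B →ₐ[K] B')).toFun z))
  · intro F hF p c hc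
    rw [isoF_ZF] at hc ⊢
    have h1 := h.cst (isoF e F) (isoF_FOk e hF) p _ (iso_ClOn e hc)
    have h2 := CstOn.pull (berM (e : B →ₐ[K] B')) h1
    rw [berM_pull_inv] at h2
    exact h2.mono (isoF_SFn e S0 F) (le_refl _)

end Pool.Agent.TD
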