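import Pool.Agent.TD.AR.Cal
import Pool.Agent.TD.F.Zero

/-! Section AR: the case of a point. -/

open scoped ContDiff Topology

namespace Pool.Agent.TD

theorem arrB_self (K : Type) [NormedField K] [IsUltrametricDist K] (hG : Good K K) :
    ArrB K (Set.univ : Set (Ber K K)) (∅ : Set K) (fun s => {γ : K | ‖γ‖ ≤ s}) := by
  have hlc := hG.lc
  refine ⟨⟨?_, ?_, ?_, ?_, ?_⟩, ?_, ?_⟩
  · exact Set.Subsingleton.isCompact fun z _ w _ => ber_self_eq K z w
  · intro f hf
    exact absurd hf (Set.notMem_empty f)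
  · intro s γ h γ' h'
    show ‖γ - γ'‖ ≤ s
    rw [sub_eq_add_neg]
    refine (IsUltrametricDist.norm_add_le_max γ (-γ')).trans (max_le h ?_)
    rw [norm_neg]
    exact h'
  · intro s γ h a _
    show ‖a • γ‖ ≤ ‖a‖ * s
    rw [norm_smul]
    exact mul_le_mul_of_nonneg_left h (norm_nonneg a)
  · intro s γ h y _
    exact (y.ext γ).trans_le h
  · intro F _ p q c hc
    by_cases hne : (ZF (Set.univ : Set (Ber K K)) F).Nonempty
    · obtain ⟨z, hz⟩ := hne
      obtain ⟨e, he⟩ := (berLS K K).poincare (hG.star z) (c.1 z) (hc z hz)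
      obtain ⟨θ, h, rfl⟩ := (berLS K K).exists_germ e
      obtain ⟨c0, hc0⟩ := (berLS K K).extend_germ hG.cut h
      obtain ⟨h', e'⟩ := hc0.self_of_nhds
      refine ⟨c0, fun z' _ => ?_⟩
      obtain rfl := ber_self_eq K z' z
      rw [e']
      exact he.symm
    · exact ⟨0, fun z hz => absurd ⟨z, hz⟩ hne⟩
  · intro F _ p c hc
    by_cases hne : (ZF (Set.univ : Set (Ber K K)) F).Nonempty
    · obtain ⟨z, hz⟩ := hne
      have h1 := (berLS K K).poincare0 (hG.star z) (c.1 z) (hc z hz)
      cases p with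
      | zero =>
        rw [(berLS K K).Lp_zero] at h1
        obtain ⟨a, ha⟩ := Submodule.mem_span_singleton.1 h1
        refine ⟨0, Fin.elim0, a • one0, fun i => i.elim0, fun _ _ _ _ => rfl,
          (isSF_one0 _).smul a, fun z' _ => ?_⟩
        obtain rfl := ber_self_eq K z' z
        have h2 : (berLS K K).SFat z' (a • (one0 : Raw K 0 0)) :=
          LogSpace.SFat.smul a ⟨∅, isSF_one0 ∅, by simp⟩
        refine ⟨h2, ?_⟩
        rw [← ha]
        exact ((berLS K K).germ_smul a _).symm
      | succ p =>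
        have h2 : c.1 z = 0 := by
          rw [(berLS K K).Lp_succ] at h1
          have h3 : Submodule.span ℝ {x | ∃ f, ∃ h : z ∈ (berLS K K).dom f,
              ∃ c ∈ (berLS K K).Lp p z, x = (berLS K K).wdS p 0 z ((berLS K K).dlS f h) c} ≤ ⊥ := by
            rw [Submodule.span_le]
            rintro x ⟨f, h, c, -, rfl⟩
            rw [fz_dlS, map_zero, LinearMap.zero_apply]
            exact Submodule.zero_mem _
          exact (Submodule.mem_bot ℝ).1 (h3 h1)
        refine ⟨0, Fin.elim0, 0, fun i => i.elim0, fun _ _ _ _ => rfl, IsSF.zero _,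
          fun z' _ => ?_⟩
        obtain rfl := ber_self_eq K z' z
        refine ⟨LogSpace.SFat.zero _, ?_⟩
        rw [h2, ← (berLS K K).germ_zero]
        rfl
    · exact ⟨0, Fin.elim0, 0, fun i => i.elim0, fun _ _ _ _ => rfl, IsSF.zero _,
        fun z hz => absurd ⟨z, hz⟩ hne⟩

end Pool.Agent.TD
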