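import Pool.Agent.TD.AR.Step
import Pool.Agent.TD.AR.Zero
import Pool.Agent.TD.AR.Iso
import Pool.Agent.TD.F.Bridge
import Pool.Agent.TD.N.Defs

/-! Section AR: polynomial rings. -/

open scoped ContDiff Topology NNReal

namespace Pool.Agent.TD

section
variable {K σ : Type} [NormedField K]

/-- The set `{|X_b| = ρ_b}`. -/
def mvZ (K : Type) [NormedField K] {σ : Type} (ρ : σ → ℝ) : Set (Ber K (MvPolynomial σ K)) :=
  {y | ∀ b, y.v (MvPolynomial.X b) = ρ b}

/-- The variables. -/
def mvS (K σ : Type) [NormedField K] : Set (MvPolynomial σ K) := Set.range MvPolynomial.X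

/-- The linear forms with coefficients bounded by `s`. -/
def mvN (K : Type) [NormedField K] {σ : Type} (ρ : σ → ℝ) (s : ℝ) : Set (MvPolynomial σ K) :=
  {f | ∃ (a0 : K) (a : σ → K), ‖a0‖ ≤ s ∧ (∀ b, ‖a b‖ * ρ b ≤ s) ∧ f = linf a0 a}

theorem linf_zero (a0 : K) (a : Fin 0 → K) : linf a0 a = MvPolynomial.C a0 := by
  unfold linf
  rw [finsum_of_isEmpty, add_zero]

theorem linf_finSucc {n : ℕ} (a0 : K) (a : Fin (n + 1) → K) :
    MvPolynomial.finSuccEquiv K n (linf a0 a) =
      Polynomial.C (MvPolynomial.C (a 0)) * Polynomial.X +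
        Polynomial.C (linf a0 fun i => a i.succ) := by
  unfold linf
  rw [finsum_eq_sum_of_fintype, finsum_eq_sum_of_fintype, Fin.sum_univ_succ]
  have hC : ∀ c : K, MvPolynomial.finSuccEquiv K n (MvPolynomial.C c) =
      Polynomial.C (MvPolynomial.C c) := fun c => (MvPolynomial.finSuccEquiv K n).commutes c
  simp only [map_add, map_sum, map_mul, hC, MvPolynomial.finSuccEquiv_X_zero,
    MvPolynomial.finSuccEquiv_X_succ]
  ring

theorem linf_rename {τ : Type} [Finite σ] (e : σ ≃ τ) (a0 : K) (a : σ → K) :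
    MvPolynomial.rename e (linf a0 a) = linf a0 fun t => a (e.symm t) := by
  have := Fintype.ofFinite σ
  have := Fintype.ofEquiv σ e
  unfold linf
  rw [finsum_eq_sum_of_fintype, finsum_eq_sum_of_fintype]
  simp only [map_add, map_sum, map_mul, MvPolynomial.rename_C, MvPolynomial.rename_X]
  congr 1
  exact Fintype.sum_equiv e _ _ fun b => by rw [e.symm_apply_apply]

theorem mv_ArrB_congr {A : Type} [CommRing A] [Algebra K A] {Z0 Z0' : Set (Ber K A)}
    {S0 S0' : Set A} {N N' : ℝ → Set A} (h : ArrB K Z0 S0 N) (h1 : Z0 = Z0') (h2 : S0 = S0')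
    (h3 : N = N') : ArrB K Z0' S0' N' := by
  subst h1 h2 h3
  exact h

/-- (AR) for `Fin n`. -/
theorem arrB_mv_fin [IsUltrametricDist K] : ∀ (n : ℕ) (ρ : Fin n → ℝ), (∀ b, 0 < ρ b) →
    ArrB K (mvZ K ρ) (mvS K (Fin n)) (mvN K ρ) := by
  intro n
  induction n with
  | zero =>
    intro ρ hρ
    have e : MvPolynomial (Fin 0) K ≃ₐ[K] K := MvPolynomial.isEmptyAlgEquiv K (Fin 0)
    refine mv_ArrB_congr ((arrB_self K (good_of_finiteType K K)).iso e.symm) ?_ ?_ ?_
    · ext y
      exact ⟨fun _ b => b.elim0, fun _ => trivial⟩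
    · ext y
      constructor
      · rintro ⟨x, hx, -⟩
        exact hx.elim
      · rintro ⟨b, -⟩
        exact b.elim0
    · funext s
      ext f
      constructor
      · rintro ⟨γ, hγ, rfl⟩
        refine ⟨γ, fun b => b.elim0, hγ, fun b => b.elim0, ?_⟩
        rw [linf_zero]
        exact e.symm.commutes γ
      · rintro ⟨a0, a, h1, -, rfl⟩
        refine ⟨a0, h1, ?_⟩
        rw [linf_zero]
        exact e.symm.commutes a0
  | succ n ih =>
    intro ρ hρ
    have h0 := ih (fun i => ρ i.succ) fun b => hρ b.succ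
    have h1 := h0.step (good_of_finiteType K _) (good_of_finiteType K _)
      (fun r hr => circU K _ r hr) (hρ 0)
    have hX : ∀ i : Fin n, (MvPolynomial.finSuccEquiv K n).symm
        (Polynomial.C (MvPolynomial.X i)) = MvPolynomial.X i.succ := by
      intro i
      rw [AlgEquiv.symm_apply_eq, MvPolynomial.finSuccEquiv_X_succ]
    have hX0 : (MvPolynomial.finSuccEquiv K n).symm Polynomial.X = MvPolynomial.X 0 := by
      rw [AlgEquiv.symm_apply_eq, MvPolynomial.finSuccEquiv_X_zero]
    refine mv_ArrB_congr (h1.iso (MvPolynomial.finSuccEquiv K n).symm) ?_ ?_ ?_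
    · ext y
      constructor
      · rintro ⟨h2, h3⟩ b
        have h3' : y.v ((MvPolynomial.finSuccEquiv K n).symm Polynomial.X) = ρ 0 := h3
        rw [hX0] at h3'
        refine Fin.cases h3' (fun i => ?_) b
        have h4 : y.v ((MvPolynomial.finSuccEquiv K n).symm
          (Polynomial.C (MvPolynomial.X i))) = ρ i.succ := h2 i
        rw [hX] at h4
        exact h4
      · intro h
        refine ⟨fun i => ?_, ?_⟩
        · show y.v ((MvPolynomial.finSuccEquiv K n).symm
            (Polynomial.C (MvPolynomial.X i))) = ρ i.succ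
          rw [hX]
          exact h i.succ
        · show y.v ((MvPolynomial.finSuccEquiv K n).symm Polynomial.X) = ρ 0
          rw [hX0]
          exact h 0
    · ext f
      constructor
      · rintro ⟨g, hg, rfl⟩
        rcases hg with hg | ⟨_, ⟨i, rfl⟩, rfl⟩
        · rw [Set.mem_singleton_iff.1 hg]
          exact ⟨0, hX0.symm⟩
        · exact ⟨i.succ, (hX i).symm⟩
      · rintro ⟨b, rfl⟩
        refine Fin.cases ?_ (fun i => ?_) b
        · exact ⟨Polynomial.X, Or.inl rfl, hX0⟩
        · exact ⟨Polynomial.C (MvPolynomial.X i), Or.inr ⟨_, ⟨i, rfl⟩, rfl⟩, hX i⟩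
    · funext s
      ext f
      constructor
      · rintro ⟨_, ⟨a, γ, h2, ⟨a0, a', h3, h4, rfl⟩, rfl⟩, rfl⟩
        refine ⟨a0, Fin.cons a a', h3, fun b => ?_, ?_⟩
        · refine Fin.cases ?_ (fun i => ?_) b
          · exact h2
          · exact h4 i
        · show (MvPolynomial.finSuccEquiv K n).symm _ = _
          rw [AlgEquiv.symm_apply_eq, linf_finSucc]
          rfl
      · rintro ⟨a0, a, h2, h3, rfl⟩
        have h4 : linf a0 (fun i => a i.succ) ∈ mvN K (fun i : Fin n => ρ i.succ) s :=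
          ⟨a0, fun i => a i.succ, h2, fun b => h3 b.succ, rfl⟩
        have h5 : Polynomial.C (algebraMap K (MvPolynomial (Fin n) K) (a 0)) * Polynomial.X +
            Polynomial.C (linf a0 fun i => a i.succ) ∈
              upN K (ρ 0) (mvN K fun i : Fin n => ρ i.succ) s :=
          ⟨a 0, linf a0 fun i => a i.succ, h3 0, h4, rfl⟩
        refine ⟨_, h5, ?_⟩
        show (MvPolynomial.finSuccEquiv K n).symm _ = _
        rw [AlgEquiv.symm_apply_eq, linf_finSucc]
        rfl

/-- (AR) for finitely many variables. -/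
theorem arrB_mv [IsUltrametricDist K] [Finite σ] (ρ : σ → ℝ) (hρ : ∀ b, 0 < ρ b) :
    ArrB K (mvZ K ρ) (mvS K σ) (mvN K ρ) := by
  have := Fintype.ofFinite σ
  have e : Fin (Fintype.card σ) ≃ σ := (Fintype.equivFin σ).symm
  have h1 := arrB_mv_fin (K := K) _ (fun i => ρ (e i)) fun b => hρ (e b)
  have hX : ∀ i, MvPolynomial.renameEquiv K e (MvPolynomial.X i) = MvPolynomial.X (e i) := by
    intro i
    exact MvPolynomial.rename_X e i
  refine mv_ArrB_congr (h1.iso (MvPolynomial.renameEquiv K e)) ?_ ?_ ?_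
  · ext y
    constructor
    · intro h b
      have h2 : y.v (MvPolynomial.renameEquiv K e (MvPolynomial.X (e.symm b))) =
        ρ (e (e.symm b)) := h (e.symm b)
      rw [hX, e.apply_symm_apply] at h2
      exact h2
    · intro h i
      show y.v (MvPolynomial.renameEquiv K e (MvPolynomial.X i)) = ρ (e i)
      rw [hX]
      exact h (e i)
  · ext f
    constructor
    · rintro ⟨_, ⟨i, rfl⟩, rfl⟩
      exact ⟨e i, (hX i).symm⟩
    · rintro ⟨b, rfl⟩
      exact ⟨MvPolynomial.X (e.symm b), ⟨_, rfl⟩, by rw [hX, e.apply_symm_apply]⟩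
  · funext s
    ext f
    constructor
    · rintro ⟨_, ⟨a0, a, h2, h3, rfl⟩, rfl⟩
      refine ⟨a0, fun t => a (e.symm t), h2, fun b => ?_, linf_rename e a0 a⟩
      have h4 : ‖a (e.symm b)‖ * ρ (e (e.symm b)) ≤ s := h3 (e.symm b)
      rw [e.apply_symm_apply] at h4
      exact h4
    · rintro ⟨a0, a, h2, h3, rfl⟩
      refine ⟨_, ⟨a0, fun i => a (e i), h2, fun i => h3 (e i), rfl⟩, ?_⟩
      refine (linf_rename e a0 _).trans ?_
      congr 1
      funext t
      rw [e.apply_symm_apply]

end

end Pool.Agent.TD
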