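import Pool.Agent.TD.AR.Geo
import Pool.Agent.TD.AR.Cal

/-! Section AR: reduction to centres and base forms. -/

open scoped ContDiff Topology
open Polynomial

namespace Pool.Agent.TD

section
variable {K A : Type} [NormedField K] [CommRing A] [Algebra K A] {r : ℝ} {Z0 : Set (Ber K A)}
  {S0 : Set A} {N : ℝ → Set A}

private lemma red_vcst (z : Ber K A[X]) (a : K) : z.v (C (algebraMap K A a)) = ‖a‖ := by
  rw [← z.ext a, Polynomial.algebraMap_apply]

private lemma red_vaX {z : Ber K A[X]} (hz : z.v (X : A[X]) = r) (a : K) :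
    z.v (C (algebraMap K A a) * X) = ‖a‖ * r := by
  rw [z.mul, red_vcst, hz]

private lemma red_mono {f f' : A[X]} {Z Z' : Set (Ber K A[X])}
    (h : EqvOn (berLS K A[X]) f f' Z) (hZ : Z' ⊆ Z) : EqvOn (berLS K A[X]) f f' Z' :=
  fun z hz => h z (hZ hz)

private lemma red_refl {f : A[X]} {Z : Set (Ber K A[X])} (h : ∀ z ∈ Z, z.v f ≠ 0) :
    EqvOn (berLS K A[X]) f f Z :=
  fun z hz => ⟨h z hz, h z hz, 0, Filter.Eventually.of_forall fun _ => (zero_add _).symm⟩

/-- The class of functions `a X + γ` is admissible. -/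
theorem up_nok [IsUltrametricDist K] (hr : 0 < r) (hN : NOk K Z0 S0 N) :
    NOk K (upZ r Z0) (upS S0) (upN K r N) := by
  refine ⟨?_, ?_, ?_, ?_, ?_⟩
  · have h : upZ r Z0 = circB K A r ∩ (prM K A).toFun ⁻¹' Z0 := by
      ext z
      exact ⟨fun h => ⟨h.2, h.1⟩, fun h => ⟨h.2, h.1⟩⟩
    rw [h]
    exact isCompact_circ_pre r hN.compact
  · rintro f (hf | ⟨g, hg, rfl⟩) z hz
    · rw [Set.mem_singleton_iff.1 hf, hz.2]
      exact hr.ne'
    · rw [← prM_v]
      exact hN.dom g hg _ hz.1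
  · rintro s _ ⟨a, γ, ha, hγ, rfl⟩ _ ⟨a', γ', ha', hγ', rfl⟩
    refine ⟨a - a', γ - γ', ?_, hN.sub s γ hγ γ' hγ', ?_⟩
    · have h1 : ‖a - a'‖ ≤ max ‖a‖ ‖a'‖ := by
        have h := IsUltrametricDist.norm_add_le_max a (-a')
        rwa [norm_neg, ← sub_eq_add_neg] at h
      have h2 : max ‖a‖ ‖a'‖ * r ≤ s := by
        rcases max_choice ‖a‖ ‖a'‖ with h | h <;> rw [h]
        · exact ha
        · exact ha'
      exact (mul_le_mul_of_nonneg_right h1 hr.le).trans h2
    · rw [map_sub, C_sub, C_sub]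
      ring
  · rintro s _ ⟨a, γ, ha, hγ, rfl⟩ b hb
    refine ⟨b * a, b • γ, ?_, hN.smul s γ hγ b hb, ?_⟩
    · rw [norm_mul, mul_assoc]
      exact mul_le_mul_of_nonneg_left ha (norm_nonneg b)
    · rw [smul_add, ← smul_mul_assoc, smul_C, smul_C, map_mul, Algebra.smul_def b
        (algebraMap K A a)]
  · rintro s _ ⟨a, γ, ha, hγ, rfl⟩ z hz
    refine (z.add _ _).trans (max_le ?_ ?_)
    · rw [red_vaX hz.2]
      exact ha
    · rw [← prM_v]
      exact hN.bound s γ hγ _ hz.1

/-- One condition: a form which is not essential is replaced by a form of the base, an essential one by a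
centre. -/
theorem red_one (hr : 0 < r) (hN : NOk K Z0 S0 N) {f : A[X]} {s : ℝ} (hs : 0 < s)
    (hf : f ∈ upN K r N s) :
    (∃ γ ∈ N s, (∀ z ∈ upZ r Z0, z.v f = s ↔ z.v (C γ) = s) ∧
      EqvOn (berLS K A[X]) (C γ) f {z | z ∈ upZ r Z0 ∧ z.v f = s}) ∨
    (∃ β ∈ N r, (∀ z ∈ upZ r Z0, z.v f = s ↔ z.v (X - C β) = r) ∧
      EqvOn (berLS K A[X]) (X - C β) f {z | z ∈ upZ r Z0 ∧ z.v f = s}) := by
  obtain ⟨a, γ, ha, hγ, rfl⟩ := hf
  rcases lt_or_eq_of_le ha with hlt | heq
  · left
    have key : ∀ z ∈ upZ r Z0, z.v (C (algebraMap K A a) * X + C γ) = s ↔ z.v (C γ) = s := by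
      intro z hz
      have hX : z.v (C (algebraMap K A a) * X) < s := by
        rw [red_vaX hz.2]; exact hlt
      constructor
      · intro h
        have h1 : z.v ((C (algebraMap K A a) * X + C γ) + -(C (algebraMap K A a) * X)) =
            z.v (C (algebraMap K A a) * X + C γ) := by
          apply z.add_eq
          rw [z.neg, h]; exact hX
        rw [show (C (algebraMap K A a) * X + C γ) + -(C (algebraMap K A a) * X) = C γ by ring] at h1
        rw [h1, h]
      · intro h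
        rw [add_comm, z.add_eq (by rw [h]; exact hX), h]
    refine ⟨γ, hγ, key, ?_⟩
    rintro z ⟨hz, hzs⟩
    have hγz : z.v (C γ) = s := (key z hz).1 hzs
    refine ⟨?_, ?_, 0, ?_⟩
    · show z.v (C γ) ≠ 0
      rw [hγz]; exact hs.ne'
    · show z.v _ ≠ 0
      rw [hzs]; exact hs.ne'
    · have hX : z.v (C (algebraMap K A a) * X) < z.v (C γ) := by
        rw [red_vaX hz.2, hγz]; exact hlt
      have h1 : ∀ᶠ z' in 𝓝 z, z'.v (C (algebraMap K A a) * X) < z'.v (C γ) :=
        (Ber.continuous_v _).continuousAt.eventually_lt (Ber.continuous_v _).continuousAt hX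
      filter_upwards [h1] with z' hz'
      rw [zero_add]
      show Real.log (z'.v (C γ)) = Real.log (z'.v _)
      rw [add_comm (C (algebraMap K A a) * X), z'.add_eq hz']
  · right
    have ha0 : a ≠ 0 := by
      rintro rfl
      rw [norm_zero, zero_mul] at heq
      exact hs.ne heq
    have hna : 0 < ‖a‖ := norm_pos_iff.2 ha0
    have hβ : (-a⁻¹) • γ ∈ N r := by
      have h := hN.smul s γ hγ (-a⁻¹) (neg_ne_zero.2 (inv_ne_zero ha0))
      have e : ‖-a⁻¹‖ * s = r := by
        rw [norm_neg, norm_inv, ← heq, ← mul_assoc, inv_mul_cancel₀ hna.ne', one_mul]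
      rwa [e] at h
    have hfe : (C (algebraMap K A a) * X + C γ : A[X]) =
        C (algebraMap K A a) * (X - C ((-a⁻¹) • γ)) := by
      have e : algebraMap K A a * ((-a⁻¹) • γ) = -γ := by
        rw [← Algebra.smul_def, smul_smul, mul_neg, mul_inv_cancel₀ ha0, neg_smul, one_smul]
      rw [mul_sub, ← C_mul, e, C_neg, sub_neg_eq_add]
    have hv : ∀ z : Ber K A[X], z.v (C (algebraMap K A a) * X + C γ) =
        ‖a‖ * z.v (X - C ((-a⁻¹) • γ)) := by
      intro z
      rw [hfe, z.mul, red_vcst]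
    have key : ∀ z : Ber K A[X], z.v (C (algebraMap K A a) * X + C γ) = s ↔
        z.v (X - C ((-a⁻¹) • γ)) = r := by
      intro z
      rw [hv, ← heq]
      constructor
      · intro h
        exact mul_left_cancel₀ hna.ne' h
      · intro h
        rw [h]
    refine ⟨_, hβ, fun z _ => key z, ?_⟩
    rintro z ⟨hz, hzs⟩
    have hXz : z.v (X - C ((-a⁻¹) • γ)) = r := (key z).1 hzs
    have hX0 : z.v (X - C ((-a⁻¹) • γ)) ≠ 0 := by rw [hXz]; exact hr.ne'
    refine ⟨hX0, ?_, -Real.log ‖a‖, ?_⟩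
    · show z.v _ ≠ 0
      rw [hzs]; exact hs.ne'
    · have h1 : ∀ᶠ z' in 𝓝 z, z'.v (X - C ((-a⁻¹) • γ)) ≠ 0 :=
        (Ber.continuous_v _).continuousAt.eventually_ne hX0
      filter_upwards [h1] with z' hz'
      show Real.log (z'.v _) = -Real.log ‖a‖ + Real.log (z'.v _)
      rw [hv, Real.log_mul hna.ne' hz', neg_add_cancel_left]

/-- Reduction of a list of conditions. -/
theorem red_list (hr : 0 < r) (hN : NOk K Z0 S0 N) {F : List (A[X] × ℝ)} (hF : FOk (upN K r N) F) :
    ∃ (F' : List (A × ℝ)) (Bs : List A), FOk N F' ∧ (∀ β ∈ Bs, β ∈ N r) ∧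
      ZF (upZ r Z0) F = ZX r Z0 F' Bs ∧
      ∀ f ∈ SX S0 F' Bs, ∃ f' ∈ SFn (upS S0) F,
        EqvOn (berLS K A[X]) f f' (ZF (upZ r Z0) F) := by
  induction F with
  | nil =>
    refine ⟨[], [], ?_, ?_, ?_, ?_⟩
    · intro x hx
      exact absurd hx List.not_mem_nil
    · intro β hβ
      exact absurd hβ List.not_mem_nil
    · ext z
      constructor
      · rintro ⟨hz, -⟩
        exact ⟨⟨hz.1, fun x hx => absurd hx List.not_mem_nil⟩, hz.2,
          fun β hβ => absurd hβ List.not_mem_nil⟩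
      · rintro ⟨⟨hz, -⟩, hz2, -⟩
        exact ⟨⟨hz, hz2⟩, fun x hx => absurd hx List.not_mem_nil⟩
    · rintro f ((hf | ⟨g, (hg | ⟨x, hx, -⟩), rfl⟩) | ⟨β, hβ, -⟩)
      · refine ⟨f, Or.inl (Or.inl hf), red_refl fun z hz => ?_⟩
        rw [Set.mem_singleton_iff.1 hf, hz.1.2]
        exact hr.ne'
      · refine ⟨C g, Or.inl (Or.inr ⟨g, hg, rfl⟩), red_refl fun z hz => ?_⟩
        rw [← prM_v]
        exact hN.dom g hg _ hz.1.1
      · exact absurd hx List.not_mem_nil
      · exact absurd hβ List.not_mem_nil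
  | cons x F ih =>
    obtain ⟨f, s⟩ := x
    obtain ⟨F', Bs, hF', hBs, hZ, hS⟩ := ih fun x hx => hF x (List.mem_cons_of_mem _ hx)
    obtain ⟨hs, hf⟩ := hF (f, s) List.mem_cons_self
    have hsub : ZF (upZ r Z0) ((f, s) :: F) ⊆ ZF (upZ r Z0) F := fun z hz =>
      ⟨hz.1, fun x hx => hz.2 x (List.mem_cons_of_mem _ hx)⟩
    have hsub2 : ZF (upZ r Z0) ((f, s) :: F) ⊆ {z | z ∈ upZ r Z0 ∧ z.v f = s} := fun z hz =>
      ⟨hz.1, hz.2 (f, s) List.mem_cons_self⟩
    have hmem : ∀ g ∈ SFn (upS S0) F, g ∈ SFn (upS S0) ((f, s) :: F) := by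
      rintro g (hg | ⟨x, hx, hxg⟩)
      · exact Or.inl hg
      · exact Or.inr ⟨x, List.mem_cons_of_mem _ hx, hxg⟩
    have hmemf : f ∈ SFn (upS S0) ((f, s) :: F) := Or.inr ⟨(f, s), List.mem_cons_self, rfl⟩
    have hold : ∀ g ∈ SX S0 F' Bs, ∃ f' ∈ SFn (upS S0) ((f, s) :: F),
        EqvOn (berLS K A[X]) g f' (ZF (upZ r Z0) ((f, s) :: F)) := by
      intro g hg
      obtain ⟨f', hf', he⟩ := hS g hg
      exact ⟨f', hmem f' hf', red_mono he hsub⟩
    rcases red_one hr hN hs hf with ⟨γ, hγ, hiff, heqv⟩ | ⟨β, hβ, hiff, heqv⟩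
    · refine ⟨(γ, s) :: F', Bs, ?_, hBs, ?_, ?_⟩
      · intro x hx
        rcases List.mem_cons.1 hx with rfl | hx
        · exact ⟨hs, hγ⟩
        · exact hF' x hx
      · ext z
        constructor
        · intro hz
          have h1 : z ∈ ZX r Z0 F' Bs := hZ ▸ hsub hz
          have h2 : z.v (C γ) = s := (hiff z hz.1).1 (hz.2 (f, s) List.mem_cons_self)
          refine ⟨⟨h1.1.1, ?_⟩, h1.2⟩
          intro x hx
          rcases List.mem_cons.1 hx with rfl | hx
          · exact h2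
          · exact h1.1.2 x hx
        · intro hz
          have h1 : z ∈ ZX r Z0 F' Bs :=
            ⟨⟨hz.1.1, fun x hx => hz.1.2 x (List.mem_cons_of_mem _ hx)⟩, hz.2⟩
          have h2 : z.v (C γ) = s := hz.1.2 (γ, s) List.mem_cons_self
          rw [← hZ] at h1
          refine ⟨h1.1, ?_⟩
          intro x hx
          rcases List.mem_cons.1 hx with rfl | hx
          · exact (hiff z h1.1).2 h2
          · exact h1.2 x hx
      · rintro g ((hg | ⟨g', (hg' | ⟨x, hx, hxg⟩), rfl⟩) | hg)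
        · exact hold g (Or.inl (Or.inl hg))
        · exact hold _ (Or.inl (Or.inr ⟨g', Or.inl hg', rfl⟩))
        · rcases List.mem_cons.1 hx with rfl | hx
          · subst hxg
            exact ⟨f, hmemf, red_mono heqv hsub2⟩
          · exact hold _ (Or.inl (Or.inr ⟨g', Or.inr ⟨x, hx, hxg⟩, rfl⟩))
        · exact hold g (Or.inr hg)
    · refine ⟨F', β :: Bs, hF', ?_, ?_, ?_⟩
      · intro x hx
        rcases List.mem_cons.1 hx with rfl | hx
        · exact hβ
        · exact hBs x hx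
      · ext z
        constructor
        · intro hz
          have h1 : z ∈ ZX r Z0 F' Bs := hZ ▸ hsub hz
          have h2 : z.v (X - C β) = r := (hiff z hz.1).1 (hz.2 (f, s) List.mem_cons_self)
          refine ⟨h1.1, h1.2.1, ?_⟩
          intro x hx
          rcases List.mem_cons.1 hx with rfl | hx
          · exact h2
          · exact h1.2.2 x hx
        · intro hz
          have h1 : z ∈ ZX r Z0 F' Bs :=
            ⟨hz.1, hz.2.1, fun x hx => hz.2.2 x (List.mem_cons_of_mem _ hx)⟩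
          have h2 : z.v (X - C β) = r := hz.2.2 β List.mem_cons_self
          rw [← hZ] at h1
          refine ⟨h1.1, ?_⟩
          intro x hx
          rcases List.mem_cons.1 hx with rfl | hx
          · exact (hiff z h1.1).2 h2
          · exact h1.2 x hx
      · rintro g (hg | ⟨β', hβ', rfl⟩)
        · exact hold g (Or.inl hg)
        · rcases List.mem_cons.1 hβ' with rfl | hβ'
          · exact ⟨f, hmemf, red_mono heqv hsub2⟩
          · exact hold _ (Or.inr ⟨β', hβ', rfl⟩)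

end

end Pool.Agent.TD
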