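import Pool.Agent.TD.AR.Iex
import Pool.Agent.TD.AR.Ics
import Pool.Agent.TD.AR.Red

/-! Section AR: the step from `A` to `A[X]`. -/

open scoped ContDiff Topology
open Polynomial

namespace Pool.Agent.TD

theorem ArrB.step {K A : Type} [NormedField K] [IsUltrametricDist K] [CommRing A] [Algebra K A]
    {r : ℝ} {Z0 : Set (Ber K A)} {S0 : Set A} {N : ℝ → Set A} (gA : Good K A)
    (gX : Good K A[X]) (hU : ∀ r, 0 < r → CircU K A r) (hr : 0 < r) (hN : ArrB K Z0 S0 N) :
    ArrB K (upZ r Z0) (upS S0) (upN K r N) where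
  toNOk := up_nok hr hN.toNOk
  ex F hF := by
    obtain ⟨F', Bs, h1, h2, h3, -⟩ := red_list hr hN.toNOk hF
    rw [h3]
    exact zx_ex gA gX hU hr hN h1 Bs h2
  cst F hF := by
    obtain ⟨F', Bs, h1, h2, h3, h4⟩ := red_list hr hN.toNOk hF
    intro p c hc
    have h5 := zx_cs gA gX hU hr hN h1 Bs h2
    rw [← h3] at h5
    exact (h5 p c hc).subst h4

end Pool.Agent.TD
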