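import Pool.Agent.TD.AR.Defs

/-! Section AR: substitution of functions in constant forms, sections given by one raw form. -/

open scoped ContDiff Topology

namespace Pool.Agent.TD

section
variable {X Φ Ψ : Type} [TopologicalSpace X] (L : LogSpace X Φ) {p q : ℕ}

/-- A constant form in the functions `u i` is equal to the same form in the functions `u' i` if
`lf (u i) - lf (u' i)` is constant near `z`. -/
theorem van_sub {z : X} {θ : Raw Ψ p q} {S : Finset Ψ} (hc : IsCst θ) (hs : IsSF S θ)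
    {u u' : Ψ → Φ} (h : ∀ i ∈ S, z ∈ L.dom (u i) ∧ z ∈ L.dom (u' i) ∧
      ∃ b : ℝ, ∀ᶠ z' in 𝓝 z, L.lf (u i) z' = b + L.lf (u' i) z') :
    L.Van z (pullR u θ - pullR u' θ) := by
  classical
  let t : Finset Φ := S.image u ∪ S.image u'
  have hut : ∀ i ∈ S, u i ∈ t := fun i hi =>
    Finset.mem_union_left _ (Finset.mem_image_of_mem u hi)
  have hut' : ∀ i ∈ S, u' i ∈ t := fun i hi =>
    Finset.mem_union_right _ (Finset.mem_image_of_mem u' hi)
  have ht : ∀ f ∈ t, z ∈ L.dom f := by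
    intro f hf
    rcases Finset.mem_union.1 hf with h1 | h1
    · obtain ⟨i, hi, rfl⟩ := Finset.mem_image.1 h1
      exact (h i hi).1
    · obtain ⟨i, hi, rfl⟩ := Finset.mem_image.1 h1
      exact (h i hi).2.1
  have hev : ∀ᶠ z' in 𝓝 z, ∀ f ∈ t, z' ∈ L.dom f := by
    rw [Filter.eventually_all_finset]
    exact fun f hf => (L.isOpen_dom f).mem_nhds (ht f hf)
  choose hd hd' b hb using h
  have hev3 : ∀ᶠ z' in 𝓝 z, ∀ i : S, L.lf (u i) z' = b i i.2 + L.lf (u' i) z' := by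
    rw [Filter.eventually_all]
    exact fun i => hb i i.2
  have hsf : IsSF t (pullR u θ - pullR u' θ) := by
    have h1 : (pullR u θ - pullR u' θ) ∈ LogSpace.dlsSF p q t :=
      Submodule.sub_mem _ ((IsSF.pullR hs).mono Finset.subset_union_left)
        ((IsSF.pullR hs).mono Finset.subset_union_right)
    exact h1
  refine ⟨t, hsf, {z' | (∀ f ∈ t, z' ∈ L.dom f) ∧
    ∀ i : S, L.lf (u i) z' = b i i.2 + L.lf (u' i) z'}, hev.and hev3,
    fun f hf z' hz' => hz'.1 f hf, ?_⟩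
  intro σ _ hσP x w v _ hw hv
  have key : ∀ y : Φ → ℝ, rs t y ∈ vectorSpan ℝ σ → rs S (y ∘ u) = rs S (y ∘ u') := by
    intro y hy
    funext i
    let ℓ : (t → ℝ) →ₗ[ℝ] ℝ := LinearMap.proj ⟨u i, hut i i.2⟩ - LinearMap.proj ⟨u' i, hut' i i.2⟩
    have hℓ : ∀ y, ℓ y = y ⟨u i, hut i i.2⟩ - y ⟨u' i, hut' i i.2⟩ := fun y => by
      simp [ℓ]
    have hk : vectorSpan ℝ σ ≤ LinearMap.ker ℓ := by
      rw [vectorSpan, Submodule.span_le]
      rintro _ ⟨y1, hy1, y2, hy2, rfl⟩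
      obtain ⟨z1, hz1, rfl⟩ := hσP hy1
      obtain ⟨z2, hz2, rfl⟩ := hσP hy2
      have h1 := hz1.2 i
      have h2 := hz2.2 i
      show ℓ (L.trop t z1 - L.trop t z2) = 0
      rw [map_sub, hℓ, hℓ]
      show L.lf (u i) z1 - L.lf (u' i) z1 - (L.lf (u i) z2 - L.lf (u' i) z2) = 0
      rw [h1, h2]
      ring
    have h0 : ℓ (rs t y) = 0 := hk hy
    rw [hℓ] at h0
    exact sub_eq_zero.1 h0
  have e1 : (fun i => rs S (w i ∘ u)) = fun i => rs S (w i ∘ u') := by
    funext i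
    exact key (w i) (hw i)
  have e2 : (fun j => rs S (v j ∘ u)) = fun j => rs S (v j ∘ u') := by
    funext j
    exact key (v j) (hv j)
  obtain ⟨α, -, hα⟩ := hs
  show θ (x ∘ u) (fun i => w i ∘ u) (fun j => v j ∘ u)
    - θ (x ∘ u') (fun i => w i ∘ u') (fun j => v j ∘ u') = 0
  rw [sub_eq_zero, hc (x ∘ u) (x ∘ u'), hα, hα]
  exact congrArg₂ (fun a c => α (rs S (x ∘ u')) a c) e1 e2

/-- A raw form defines a germ if its functions are defined. -/
theorem sfat_pullR {z : X} {θ : Raw Ψ p q} {S : Finset Ψ} (hs : IsSF S θ) {u : Ψ → Φ}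
    (h : ∀ i ∈ S, z ∈ L.dom (u i)) : L.SFat z (pullR u θ) := by
  classical
  refine ⟨S.image u, IsSF.pullR hs, ?_⟩
  intro f hf
  obtain ⟨i, hi, rfl⟩ := Finset.mem_image.1 hf
  exact h i hi

/-- A raw form which is defined at all points of the compact set `Z` is near `Z` a global
section. -/
theorem exists_secR [LocallyCompactSpace X] [T2Space X] (hC : L.CutOff) {Z : Set X}
    (hZ : IsCompact Z) {θ : Raw Φ p q} (h : ∀ z ∈ Z, L.SFat z θ) :
    ∃ c : L.G p q, ∀ z ∈ Z, ∃ k : L.SFat z θ, c.1 z = L.germ θ k := by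
  classical
  obtain ⟨c, hc⟩ := L.extend hC hZ
    (fun z => if h : L.SFat z θ then L.germ θ h else 0) (fun z hz => ⟨θ, by
      refine (LogSpace.SFat.nhds L (h z hz)).mono fun z' hz' _ => ⟨hz', ?_⟩
      exact dif_pos hz'⟩)
  refine ⟨c, fun z hz => ⟨h z hz, ?_⟩⟩
  rw [hc z hz]
  exact dif_pos (h z hz)

end

end Pool.Agent.TD
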